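import Pool.Agent.Work.MP_f0c219_gt_h18.Planes3

/-!
# Block F, part 4: the quasi-morphism
-/

open Matrix

namespace Pool.Agent.Work.MP_f0c219_gt.BlockF

/-- The translation `(1 w; 0 1)` -/
def T (w : GaussianInt) : SL2Gi := ⟨!![1, w; 0, 1], by simp [Matrix.det_fin_two]⟩

theorem lt_act (g : SL2Gi) {B C : Mat} (h : lt B C) : lt (act g B) (act g C) := by
  refine ⟨?_, fun e => h.2 (act_injective g e)⟩
  rw [← act_sub]
  exact h.1.act g

theorem Q_act {k : SL2Gi} (hk : InGam k) {e : Mat × Mat} (h : Q e) : Q (act k e.1, act k e.2) := by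
  refine ⟨TA_act hk h.1, TB_act hk h.2.1, Fam_act hk h.2.2.1, Fam_act hk h.2.2.2.1,
    lt_act k h.2.2.2.2.1, ?_⟩
  rintro ⟨C, h1, h2, h3⟩
  refine h.2.2.2.2.2 ⟨act k⁻¹ C, Fam_act (InGam.inv hk) h1, ?_, ?_⟩
  · have := lt_act k⁻¹ h2
    simp only [act_inv_act] at this
    exact this
  · have := lt_act k⁻¹ h3
    simp only [act_inv_act] at this
    exact this

theorem pnt_mul (k g : SL2Gi) (B : Mat) : pnt (k * g) (act k B) = pnt g B := by
  unfold pnt
  rw [← act_mul]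
  congr 2
  group

theorem N_act {k : SL2Gi} (hk : InGam k) (g h : SL2Gi) :
    N (pnt (k * g)) (pnt (k * h)) = N (pnt g) (pnt h) := by
  unfold N
  have hinj : Function.Injective (fun e : Mat × Mat => (act k e.1, act k e.2)) := by
    intro e f hef
    simp only [Prod.mk.injEq] at hef
    exact Prod.ext (act_injective k hef.1) (act_injective k hef.2)
  rw [← Set.ncard_image_of_injective (Sep (pnt g) (pnt h)) hinj]
  congr 1
  ext e
  constructor
  · rintro ⟨h1, h2, h3⟩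
    refine ⟨(act k⁻¹ e.1, act k⁻¹ e.2), ⟨Q_act (InGam.inv hk) h1, ?_, ?_⟩, ?_⟩
    · rw [← act_act_inv k e.1, pnt_mul] at h2
      exact h2
    · rw [← act_act_inv k e.2, pnt_mul] at h3
      exact h3
    · simp only [act_act_inv]
  · rintro ⟨f, ⟨h1, h2, h3⟩, rfl⟩
    refine ⟨Q_act hk h1, ?_, ?_⟩
    · simp only [pnt_mul]; exact h2
    · simp only [pnt_mul]; exact h3

/-- the quasi-morphism -/
noncomputable def qm (g : SL2Gi) : ℤ := (N (pnt 1) (pnt g) : ℤ) - N (pnt g) (pnt 1)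

theorem isPt_pnt' {g : SL2Gi} (hg : ∀ B, Fam B → Fam (act g⁻¹ B)) : IsPt (pnt g) where
  add B C := by simp only [pnt, act_add, L_add]
  neg B := by simp only [pnt, act_neg, L_neg]
  pos C h h0 := by
    refine L_pos (h.act _) ?_
    intro h1
    apply h0
    apply act_injective g⁻¹
    rw [h1, act_zero]
  ne B h := L_ne (hg B h)

theorem isPt_one : IsPt (pnt 1) := isPt_pnt' (fun B hB => by rw [inv_one, act_one]; exact hB)

theorem isPt_mul {g h : SL2Gi} (hg : InGam g) (hh : InGam h) : IsPt (pnt (g * h)) := by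
  refine isPt_pnt' (fun B hB => ?_)
  rw [_root_.mul_inv_rev, act_mul]
  exact Fam_act (InGam.inv hh) (Fam_act (InGam.inv hg) hB)

theorem qm_quasi {g h : SL2Gi} (hg : InGam g) (hh : InGam h) :
    |qm (g * h) - qm g - qm h| ≤ 3 := by
  have h1 := coboundary isPt_one (isPt_pnt hg) (isPt_mul hg hh)
  have h2 : qm h = (N (pnt g) (pnt (g * h)) : ℤ) - N (pnt (g * h)) (pnt g) := by
    have e1 := N_act hg 1 h
    have e2 := N_act hg h 1
    rw [mul_one] at e1 e2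
    rw [e1, e2]
    rfl
  rw [h2]
  unfold qm
  rw [abs_le] at h1 ⊢
  constructor <;> linarith [h1.1, h1.2]

theorem qm_neg (g : SL2Gi) : qm (-g) = qm g := by
  have : pnt (-g) = pnt g := by
    funext B
    have e : (-g)⁻¹ = -g⁻¹ := by
      rw [inv_eq_iff_mul_eq_one, neg_mul_neg, mul_inv_cancel]
    unfold pnt
    rw [e, act_neg_left]
  unfold qm
  rw [this]

/-! ### The values at the translations -/

theorem pnt_T (m n a d b1 b2 : ℤ) : pnt (T (m * ⟨1, 1⟩ + n * ⟨-2, 2⟩)) (M a d b1 b2) =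
    2 * (2 * a - 4 * m * b1 - 8 * n * b2 + 4 * d * (m ^ 2 + 4 * n ^ 2) + 4 * d + b2 -
      4 * d * n) := by
  have hinv : (T (m * ⟨1, 1⟩ + n * ⟨-2, 2⟩))⁻¹ = T (⟨1, 1⟩ * ⟨-m, -2 * n⟩) := by
    rw [Matrix.SpecialLinearGroup.SL2_inv_expl]
    apply Subtype.ext
    ext i j <;> fin_cases i <;> fin_cases j <;> simp [T] <;> ring
  unfold pnt
  rw [hinv, conj_M (T (⟨1, 1⟩ * ⟨-m, -2 * n⟩)) 1 0 (-m) (-2 * n) 0 0 1 0 (by simp only [T]; ext <;> simp)
    (by simp only [T]; ext <;> simp)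
    (by simp only [T]; ext <;> simp) (by simp only [T]; ext <;> simp), L_M]
  ring

theorem pnt_one (a d b1 b2 : ℤ) : pnt 1 (M a d b1 b2) = 2 * (2 * a + 4 * d + b2) := by
  unfold pnt
  rw [inv_one, act_one, L_M]

theorem PSD_diag {a d b1 b2 : ℤ} (h : PSD (M a d b1 b2)) : 0 ≤ a ∧ 0 ≤ d := by
  have h1 := h.form 1 0
  have h2 := h.form 0 1
  simp [M] at h1 h2
  omega

theorem PSD_d0 {a b1 b2 : ℤ} (h : PSD (M a 0 b1 b2)) : 0 ≤ a ∧ b1 = 0 ∧ b2 = 0 := by
  have h0 := (PSD_diag h).1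
  have h1 := h.form 1 ⟨-((a + 1) * (b1 - b2)), -((a + 1) * (b1 + b2))⟩
  simp [M] at h1
  have h2 : (b1 ^ 2 + b2 ^ 2) * (2 * (a + 1)) ≤ a := by nlinarith
  have h3 : b1 ^ 2 + b2 ^ 2 = 0 := by
    by_contra hc
    have h4 : 1 ≤ b1 ^ 2 + b2 ^ 2 := by
      have : 0 ≤ b1 ^ 2 + b2 ^ 2 := by positivity
      omega
    nlinarith
  refine ⟨h0, ?_, ?_⟩
  · nlinarith [sq_nonneg b1, sq_nonneg b2]
  · nlinarith [sq_nonneg b1, sq_nonneg b2]

/-- only vertical planes separate -/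
theorem d_zero {m n a d b1 b2 : ℤ} (h1 : b1 ^ 2 + b2 ^ 2 - 2 * a * d = 1) (h2 : d % 2 = 0)
    (h : (0 < pnt 1 (M a d b1 b2) ∧ pnt (T (m * ⟨1, 1⟩ + n * ⟨-2, 2⟩)) (M a d b1 b2) < 0) ∨
      (pnt 1 (M a d b1 b2) < 0 ∧ 0 < pnt (T (m * ⟨1, 1⟩ + n * ⟨-2, 2⟩)) (M a d b1 b2))) :
    d = 0 := by
  by_contra hd
  have hd2 : 4 ≤ d ^ 2 := by
    obtain ⟨k, rfl⟩ : ∃ k, d = 2 * k := ⟨d / 2, by omega⟩
    have hk : k ≠ 0 := by rintro rfl; exact hd rfl
    have : 0 < k ^ 2 := by positivity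
    nlinarith
  rw [pnt_one, pnt_T] at h
  have e1 : 4 * (d * (2 * a + 4 * d + b2)) = 4 * b1 ^ 2 + (2 * b2 + d) ^ 2 + 15 * d ^ 2 - 4 := by
    linear_combination (-4) * h1
  have e2 : 4 * (d * (2 * a - 4 * m * b1 - 8 * n * b2 + 4 * d * (m ^ 2 + 4 * n ^ 2) + 4 * d + b2 -
      4 * d * n)) = 4 * (b1 - 2 * m * d) ^ 2 + (2 * b2 + d - 8 * n * d) ^ 2 + 15 * d ^ 2 - 4 := by
    linear_combination (-4) * h1
  have p1 : 0 < d * (2 * a + 4 * d + b2) := by nlinarith [sq_nonneg b1, sq_nonneg (2 * b2 + d)]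
  have p2 : 0 < d * (2 * a - 4 * m * b1 - 8 * n * b2 + 4 * d * (m ^ 2 + 4 * n ^ 2) + 4 * d + b2 -
      4 * d * n) := by
    nlinarith [sq_nonneg (b1 - 2 * m * d), sq_nonneg (2 * b2 + d - 8 * n * d)]
  rcases lt_or_gt_of_ne hd with hd | hd
  · have q1 := neg_of_mul_pos_right p1 hd.le
    have q2 := neg_of_mul_pos_right p2 hd.le
    omega
  · have q1 := (mul_pos_iff_of_pos_left hd).1 p1
    have q2 := (mul_pos_iff_of_pos_left hd).1 p2
    omega

/-- the `j`-th vertical pair -/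
def vp (j : ℤ) : Mat × Mat := (M (4 * j) 0 0 1, M (4 * j + 1) 0 0 1)

theorem Q_vp (j : ℤ) : Q (vp j) := by
  have hA : TA (vp j).1 := ⟨4 * j, 0, 0, 1, rfl, by norm_num, by rw [resA_iff]; omega⟩
  have hB : TB (vp j).2 := ⟨4 * j + 1, 0, 0, 1, rfl, by norm_num, by rw [resB_iff]; omega⟩
  refine ⟨hA, hB, Or.inl hA, Or.inr (Or.inl hB), ⟨?_, ?_⟩, ?_⟩
  · simp only [vp, M_sub]
    exact PSD_M (by linarith) (by norm_num) (by norm_num)
  · intro h
    have := (M_inj h).1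
    omega
  · rintro ⟨C, hC, ⟨k1, k2⟩, ⟨k3, k4⟩⟩
    obtain ⟨a, d, b1, b2, rfl, -, -, -, -⟩ := hC.exists
    simp only [vp] at k1 k2 k3 k4
    rw [M_sub] at k1 k3
    have d1 := PSD_diag k1
    have d3 := PSD_diag k3
    have hd : d = 0 := by omega
    subst hd
    have f1 := PSD_d0 (by simpa using k1)
    have f3 := PSD_d0 (by simpa using k3)
    have hb1 : b1 = 0 := by omega
    have hb2 : b2 = 1 := by omega
    subst hb1 hb2
    have : a = 4 * j ∨ a = 4 * j + 1 := by omega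
    rcases this with rfl | rfl
    · exact k2 rfl
    · exact k4 rfl

/-- a counted pair of vertical planes is one of the `vp j` -/
theorem eq_vp {e : Mat × Mat} (he : Q e) (h1 : ∀ a d b1 b2 : ℤ, e.1 = M a d b1 b2 →
      b1 ^ 2 + b2 ^ 2 - 2 * a * d = 1 → d % 2 = 0 → d = 0)
    (h2 : ∀ a d b1 b2 : ℤ, e.2 = M a d b1 b2 →
      b1 ^ 2 + b2 ^ 2 - 2 * a * d = 1 → d % 2 = 0 → d = 0) : ∃ j, e = vp j := by
  obtain ⟨B, B'⟩ := e
  obtain ⟨⟨a, d, b1, b2, hB, n1, r1⟩, ⟨a', d', b1', b2', hB', n2, r2⟩, hF, hF', ⟨l1, l2⟩, hno⟩ := he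
  simp only at hB hB' hF hF' l1 l2 hno h1 h2
  rw [resA_iff] at r1
  rw [resB_iff] at r2
  have hd : d = 0 := h1 a d b1 b2 hB n1 (by omega)
  have hd' : d' = 0 := h2 a' d' b1' b2' hB' n2 (by omega)
  subst hd hd' hB hB'
  rw [M_sub] at l1
  obtain ⟨f1, f2, f3⟩ := PSD_d0 (by simpa using l1)
  have hb1 : b1' = b1 := by omega
  have hb2 : b2' = b2 := by omega
  subst hb1 hb2
  have z1 : b1' = 0 := by
    by_contra hz
    have : 1 ≤ (b1' / 4) ^ 2 := by
      have : b1' / 4 ≠ 0 := by omega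
      have : 0 < (b1' / 4) ^ 2 := by positivity
      omega
    obtain ⟨k, hk⟩ : ∃ k, b1' = 4 * k := ⟨b1' / 4, by omega⟩
    have hk2 : b1' / 4 = k := by omega
    rw [hk2] at this
    rw [hk] at n1
    nlinarith [sq_nonneg b2']
  subst z1
  have z2 : b2' = 1 ∨ b2' = -1 := by
    have : (b2' - 1) * (b2' + 1) = 0 := by linarith
    rcases mul_eq_zero.1 this with h | h
    · left; omega
    · right; omega
  have ha : a' = a + 1 := by
    by_contra hne
    apply hno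
    refine ⟨M (a + 1) 0 0 b2', ?_, ⟨?_, ?_⟩, ⟨?_, ?_⟩⟩
    · rcases z2 with rfl | rfl
      · exact Or.inr (Or.inl ⟨_, _, _, _, rfl, by norm_num, by rw [resB_iff]; omega⟩)
      · refine Or.inr (Or.inr (Or.inr ⟨_, _, _, _, M_neg _ _ _ _, by norm_num, ?_⟩))
        rw [resB_iff]; omega
    · rw [M_sub]
      exact PSD_M (by omega) (by norm_num) (by norm_num)
    · intro h
      have := (M_inj h).1
      omega
    · rw [M_sub]
      exact PSD_M (by omega) (by norm_num) (by norm_num)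
    · intro h
      have := (M_inj h).1
      omega
  subst ha
  have z3 : b2' = 1 := by omega
  subst z3
  refine ⟨a / 4, ?_⟩
  have : a = 4 * (a / 4) := by omega
  unfold vp
  rw [← this]

theorem InGam_T (m n : ℤ) : InGam (T (m * ⟨1, 1⟩ + n * ⟨-2, 2⟩)) := by
  refine ⟨⟨m, 2 * n⟩, 0, ?_, ?_, Or.inl ⟨?_, ?_, ?_, ?_⟩⟩
  · ext <;> simp [T] <;> ring
  · simp [T]
  · simp [T]
  · simp [T]
  · simp
  · simp

theorem Sep_pos (m n : ℤ) : Sep (pnt 1) (pnt (T (m * ⟨1, 1⟩ + n * ⟨-2, 2⟩))) =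
    vp '' (Set.Ico 0 n) := by
  ext e
  constructor
  · rintro ⟨hQ, h1, h2⟩
    have i1 := isPt_one.lt hQ.2.2.2.2.1
    have i2 := (isPt_pnt (InGam_T m n)).lt hQ.2.2.2.2.1
    obtain ⟨j, rfl⟩ := eq_vp hQ
      (fun a d b1 b2 h k1 k2 => d_zero k1 k2 (m := m) (n := n) (Or.inl (by
        rw [← h]; exact ⟨h1, by linarith⟩)))
      (fun a d b1 b2 h k1 k2 => d_zero k1 k2 (m := m) (n := n) (Or.inl (by
        rw [← h]; exact ⟨by linarith, h2⟩)))
    refine ⟨j, ?_, rfl⟩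
    simp only [vp, pnt_one] at h1
    simp only [vp, pnt_T] at h2
    constructor
    · omega
    · by_contra hc
      push Not at hc
      linarith
  · rintro ⟨j, ⟨hj0, hj1⟩, rfl⟩
    refine ⟨Q_vp j, ?_, ?_⟩
    · simp only [vp, pnt_one]
      omega
    · simp only [vp, pnt_T]
      linarith

theorem Sep_neg (m n : ℤ) : Sep (pnt (T (m * ⟨1, 1⟩ + n * ⟨-2, 2⟩))) (pnt 1) =
    vp '' (Set.Ico n 0) := by
  ext e
  constructor
  · rintro ⟨hQ, h1, h2⟩
    have i1 := isPt_one.lt hQ.2.2.2.2.1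
    have i2 := (isPt_pnt (InGam_T m n)).lt hQ.2.2.2.2.1
    obtain ⟨j, rfl⟩ := eq_vp hQ
      (fun a d b1 b2 h k1 k2 => d_zero k1 k2 (m := m) (n := n) (Or.inr (by
        rw [← h]; exact ⟨by linarith, h1⟩)))
      (fun a d b1 b2 h k1 k2 => d_zero k1 k2 (m := m) (n := n) (Or.inr (by
        rw [← h]; exact ⟨h2, by linarith⟩)))
    refine ⟨j, ?_, rfl⟩
    simp only [vp, pnt_T] at h1
    simp only [vp, pnt_one] at h2
    constructor
    · by_contra hc
      push Not at hc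
      linarith
    · by_contra hc
      push Not at hc
      linarith
  · rintro ⟨j, ⟨hj0, hj1⟩, rfl⟩
    refine ⟨Q_vp j, ?_, ?_⟩
    · simp only [vp, pnt_T]
      linarith
    · simp only [vp, pnt_one]
      linarith

theorem vp_injective : Function.Injective vp := by
  intro i j h
  have := (M_inj (congrArg Prod.fst h)).1
  omega

theorem qm_T (m n : ℤ) : qm (T (m * ⟨1, 1⟩ + n * ⟨-2, 2⟩)) = n := by
  unfold qm N
  rw [Sep_pos, Sep_neg, Set.ncard_image_of_injective _ vp_injective,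
    Set.ncard_image_of_injective _ vp_injective]
  have e1 : (Set.Ico 0 n).ncard = n.toNat := by
    rw [← Finset.coe_Ico, Set.ncard_coe_finset, Int.card_Ico]
    simp
  have e2 : (Set.Ico n 0).ncard = (-n).toNat := by
    rw [← Finset.coe_Ico, Set.ncard_coe_finset, Int.card_Ico]
    simp
  rw [e1, e2]
  omega

theorem exists_quasimorphism : ∃ q : SL2Gi → ℤ,
    (∀ g h, InGam g → InGam h → |q (g * h) - q g - q h| ≤ 3) ∧
    (∀ g, InGam g → q (-g) = q g) ∧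
    ∀ m n : ℤ, q (T (m * ⟨1, 1⟩ + n * ⟨-2, 2⟩)) = n :=
  ⟨qm, fun _ _ hg hh => qm_quasi hg hh, fun g _ => qm_neg g, qm_T⟩

end Pool.Agent.Work.MP_f0c219_gt.BlockF
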