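import Pool.Agent.Work.MP_f0c219_gt.Defs

/-!
# Block E: quasi-isometric amalgams

If `F i : G i ≃ G i` intertwines the left multiplications by `φ i h` and `φ' i h` and both `F i` and
its inverse change distances only by a bounded amount, then the amalgams of `φ` and `φ'` are
quasi-isometric.
-/

open Monoid Monoid.PushoutI

namespace Pool.Agent.Work.MP_f0c219_gt.BlockE

/-! ### Word lengths -/

section Length
variable {G : Type*} [Group G] {S : Set G}

theorem exists_word (hS : Subgroup.closure S = ⊤) (g : G) :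
    ∃ l : List G, l.length = wordLength S g ∧ (∀ x ∈ l, x ∈ S ∨ x⁻¹ ∈ S) ∧ l.prod = g := by
  have hne : {n | ∃ l : List G, l.length = n ∧ (∀ x ∈ l, x ∈ S ∨ x⁻¹ ∈ S) ∧ l.prod = g}.Nonempty := by
    have hg : g ∈ Subgroup.closure S := by rw [hS]; trivial
    rw [← Subgroup.mem_toSubmonoid, Subgroup.closure_toSubmonoid] at hg
    obtain ⟨l, h1, h2⟩ := Submonoid.exists_list_of_mem_closure hg
    exact ⟨l.length, l, rfl, fun x hx => (h1 x hx).imp id (fun h => by simpa using h), h2⟩
  exact Nat.sInf_mem hne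

theorem wordLength_le_of_list (l : List G) (h : ∀ x ∈ l, x ∈ S ∨ x⁻¹ ∈ S) :
    wordLength S l.prod ≤ l.length :=
  Nat.sInf_le ⟨l, rfl, h, rfl⟩

theorem wordLength_one : wordLength S (1 : G) = 0 := by
  have := wordLength_le_of_list (S := S) ([] : List G) (by simp)
  simpa using this

theorem wordLength_mul_le (hS : Subgroup.closure S = ⊤) (a b : G) :
    wordLength S (a * b) ≤ wordLength S a + wordLength S b := by
  obtain ⟨l, h1, h2, h3⟩ := exists_word hS a
  obtain ⟨m, k1, k2, k3⟩ := exists_word hS b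
  rw [← h1, ← k1, ← List.length_append]
  have := wordLength_le_of_list (S := S) (l ++ m) (by
    intro x hx
    rcases List.mem_append.1 hx with h | h
    · exact h2 x h
    · exact k2 x h)
  rwa [List.prod_append, h3, k3] at this

theorem exists_bound {X : Set G} (hX : X.Finite) : ∃ K : ℕ, ∀ x ∈ X, wordLength S x ≤ K := by
  obtain ⟨K, hK⟩ := (hX.image (wordLength S)).bddAbove
  exact ⟨K, fun x hx => hK ⟨x, hx, rfl⟩⟩

end Length

/-! ### Generators of a pushout -/

section
variable {ι : Type} {H : Type} [Group H] {G : ι → Type} [∀ i, Group (G i)] {φ : ∀ i, H →* G i}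

theorem closure_of [Nonempty ι] (S : ∀ i, Set (G i)) (hS : ∀ i, Subgroup.closure (S i) = ⊤) :
    Subgroup.closure (⋃ i, (of (φ := φ) i) '' S i) = ⊤ := by
  rw [eq_top_iff]
  intro x _
  have hof : ∀ (i : ι) (g : G i), (of (φ := φ) i g) ∈ Subgroup.closure (⋃ i, (of (φ := φ) i) '' S i) := by
    intro i g
    have hg : g ∈ Subgroup.closure (S i) := by rw [hS]; trivial
    have h1 : of (φ := φ) i g ∈ (Subgroup.closure (S i)).map (of (φ := φ) i) := ⟨g, hg, rfl⟩
    rw [MonoidHom.map_closure] at h1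
    exact Subgroup.closure_mono (Set.subset_iUnion (fun i => (of (φ := φ) i) '' S i) i) h1
  induction x using Monoid.PushoutI.induction_on with
  | of i g => exact hof i g
  | base h =>
    obtain ⟨i⟩ := ‹Nonempty ι›
    rw [← of_apply_eq_base φ i h]
    exact hof i _
  | mul x y hx hy => exact Subgroup.mul_mem _ (hx trivial) (hy trivial)

/-- product of a list of letters -/
def prodL (φ : ∀ i, H →* G i) (l : List (Σ i, G i)) : PushoutI φ :=
  (l.map (fun s => of (φ := φ) s.1 s.2)).prod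

theorem exists_list (hφ : ∀ i, Function.Injective (φ i)) (g : PushoutI φ) :
    ∃ (h : H) (l : List (Σ i, G i)), l.IsChain (fun a b => a.1 ≠ b.1) ∧
      (∀ s ∈ l, s.2 ∉ (φ s.1).range) ∧ g = base φ h * prodL φ l := by
  classical
  obtain ⟨d⟩ := NormalWord.transversal_nonempty φ hφ
  obtain ⟨w, rfl⟩ : ∃ w : NormalWord d, w.prod = g := ⟨NormalWord.equiv g, NormalWord.equiv.left_inv g⟩
  refine ⟨w.head, w.toList, w.chain_ne, ?_, ?_⟩
  · rintro ⟨i, a⟩ hs hr
    have h1 : a ∈ d.set i := w.normalized i a hs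
    have h2 : a ≠ 1 := w.ne_one _ hs
    apply h2
    have hc := (d.compl i).1
    have h3 : (fun x : (φ i).range × (d.set i) => (x.1 : G i) * x.2) (⟨a, hr⟩, ⟨1, d.one_mem i⟩) =
        (fun x : (φ i).range × (d.set i) => (x.1 : G i) * x.2)
          (⟨1, (φ i).range.one_mem⟩, ⟨a, h1⟩) := by simp
    have h4 := hc h3
    have h5 := congrArg (fun x : (φ i).range × (d.set i) => (x.1 : G i)) h4
    exact h5
  · unfold NormalWord.prod prodL
    congr 1
    unfold CoprodI.Word.prod
    rw [map_list_prod, List.map_map]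
    congr 1

theorem eq_nil_of_mem_range (hφ : ∀ i, Function.Injective (φ i)) (l : List (Σ i, G i))
    (hl : l.IsChain (fun a b => a.1 ≠ b.1)) (h : ∀ s ∈ l, s.2 ∉ (φ s.1).range)
    (hr : prodL φ l ∈ (base φ).range) : l = [] := by
  let w : CoprodI.Word G := ⟨l, fun s hs h1 => h s hs (by rw [h1]; exact (φ s.1).range.one_mem), hl⟩
  have hw : Reduced φ w := fun s hs => h s hs
  have e : ofCoprodI w.prod = prodL φ l := by
    unfold CoprodI.Word.prod prodL
    rw [map_list_prod, List.map_map]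
    congr 1
  have := hw.eq_empty_of_mem_range hφ (by rw [e]; exact hr)
  have h2 := congrArg CoprodI.Word.toList this
  exact h2

end

/-! ### Equivariant retractions -/

theorem exists_retraction {P A : Type} [Group P] [Group A] (j : A →* P) (hj : Function.Injective j) :
    ∃ σ : P → A, ∀ a p, σ (j a * p) = a * σ p := by
  classical
  let s := QuotientGroup.rightRel j.range
  have hrep : ∀ p : P, ∃ a : A, p = j a * (Quotient.mk s p).out := by
    intro p
    have h1 : s ((Quotient.mk s p).out) p := Quotient.mk_out p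
    have h2 := QuotientGroup.rightRel_apply.1 h1
    obtain ⟨a, ha⟩ := h2
    exact ⟨a, by rw [ha]; group⟩
  choose σ hσ using hrep
  refine ⟨σ, fun a p => ?_⟩
  have e : (Quotient.mk s (j a * p)) = Quotient.mk s p := by
    apply Quotient.sound
    change QuotientGroup.rightRel j.range _ _
    rw [QuotientGroup.rightRel_apply]
    exact ⟨a⁻¹, by rw [map_inv]; group⟩
  have h1 := hσ (j a * p)
  rw [e] at h1
  have h2 := hσ p
  have h3 : j a * (j (σ p) * (Quotient.mk s p).out) = j (σ (j a * p)) * (Quotient.mk s p).out := by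
    rw [← h2]; exact h1
  rw [← mul_assoc, ← map_mul] at h3
  exact (hj (mul_right_cancel h3)).symm

/-! ### The action -/

section Action
variable {ι : Type} {H : Type} [Group H] {G : ι → Type} [∀ i, Group (G i)] {φ φ' : ∀ i, H →* G i}

/-- The twisted action of `G i` on the pushout of `φ'`. -/
def act (F : ∀ i, G i ≃ G i) (σ : ∀ i, PushoutI φ' → G i)
    (hσ : ∀ i a p, σ i (of i a * p) = a * σ i p) (i : ι) : G i →* Function.End (PushoutI φ') where
  toFun a := fun p => of i (F i (a * (F i).symm (σ i p)) * (σ i p)⁻¹) * p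
  map_one' := by
    funext p
    change of i (F i (1 * (F i).symm (σ i p)) * (σ i p)⁻¹) * p = p
    simp
  map_mul' a b := by
    funext p
    change _ = of i (F i (a * (F i).symm (σ i (of i (F i (b * (F i).symm (σ i p)) * (σ i p)⁻¹) * p))) *
      (σ i (of i (F i (b * (F i).symm (σ i p)) * (σ i p)⁻¹) * p))⁻¹) *
      (of i (F i (b * (F i).symm (σ i p)) * (σ i p)⁻¹) * p)
    rw [hσ]
    simp only [inv_mul_cancel_right, Equiv.symm_apply_apply]
    rw [← mul_assoc (of i _) (of i _) p, ← map_mul, mul_assoc a b]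
    congr 2
    group

variable (F : ∀ i, G i ≃ G i) (hF : ∀ i h x, F i (φ i h * x) = φ' i h * F i x)
  (σ : ∀ i, PushoutI φ' → G i) (hσ : ∀ i a p, σ i (of i a * p) = a * σ i p)

theorem act_apply (i : ι) (a : G i) (p : PushoutI φ') :
    act F σ hσ i a p = of i (F i (a * (F i).symm (σ i p)) * (σ i p)⁻¹) * p := rfl

/-- left multiplication -/
def lmul {P : Type*} [Group P] : P →* Function.End P where
  toFun a := fun p => a * p
  map_one' := by funext p; exact one_mul p
  map_mul' a b := by funext p; exact mul_assoc a b p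

include hF in
theorem act_comp (i : ι) : (act F σ hσ i).comp (φ i) = (lmul).comp (base φ') := by
  ext h
  funext p
  change of i (F i (φ i h * (F i).symm (σ i p)) * (σ i p)⁻¹) * p = base φ' h * p
  rw [hF, Equiv.apply_symm_apply, mul_inv_cancel_right, of_apply_eq_base]

/-- The twisted action of the pushout of `φ` on the pushout of `φ'`. -/
def Act : PushoutI φ →* Function.End (PushoutI φ') :=
  PushoutI.lift (act F σ hσ) (lmul.comp (base φ')) (act_comp F hF σ hσ)

theorem Act_of (i : ι) (a : G i) (p : PushoutI φ') :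
    Act F hF σ hσ (of i a) p = of i (F i (a * (F i).symm (σ i p)) * (σ i p)⁻¹) * p := by
  unfold Act
  rw [lift_of]
  rfl

theorem Act_base (h : H) (p : PushoutI φ') : Act F hF σ hσ (base φ h) p = base φ' h * p := by
  unfold Act
  rw [lift_base]
  rfl

theorem Act_mul (a b : PushoutI φ) (p : PushoutI φ') :
    Act F hF σ hσ (a * b) p = Act F hF σ hσ a (Act F hF σ hσ b p) := by
  rw [map_mul]
  rfl

theorem Act_one (p : PushoutI φ') : Act F hF σ hσ 1 p = p := by
  rw [map_one]
  rfl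

/-- reduced words act as reduced words -/
theorem Act_list (l : List (Σ i, G i)) (h : ∀ s ∈ l, s.2 ∉ (φ s.1).range) (p : PushoutI φ') :
    ∃ l' : List (Σ i, G i), l'.map Sigma.fst = l.map Sigma.fst ∧
      (∀ s ∈ l', s.2 ∉ (φ' s.1).range) ∧ Act F hF σ hσ (prodL φ l) p = prodL φ' l' * p := by
  induction l with
  | nil => exact ⟨[], rfl, by simp, by simp [prodL, Act_one]⟩
  | cons s l ih =>
    obtain ⟨l', h1, h2, h3⟩ := ih (fun t ht => h t (List.mem_cons_of_mem _ ht))
    obtain ⟨i, a⟩ := s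
    set q := prodL φ' l' * p with hq
    let u : G i := F i (a * (F i).symm (σ i q)) * (σ i q)⁻¹
    refine ⟨⟨i, u⟩ :: l', by simp [h1], ?_, ?_⟩
    · intro t ht
      rcases List.mem_cons.1 ht with rfl | ht
      · rintro ⟨k, hk⟩
        apply h ⟨i, a⟩ List.mem_cons_self
        refine ⟨k, ?_⟩
        have e1 : F i (a * (F i).symm (σ i q)) = φ' i k * F i ((F i).symm (σ i q)) := by
          rw [Equiv.apply_symm_apply]
          have hk' : φ' i k = F i (a * (F i).symm (σ i q)) * (σ i q)⁻¹ := hk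
          rw [hk']
          group
        rw [← hF] at e1
        have e2 := (F i).injective e1
        exact (mul_right_cancel e2).symm
      · exact h2 t ht
    · have e : prodL φ (⟨i, a⟩ :: l) = of i a * prodL φ l := by simp [prodL]
      have e' : prodL φ' (⟨i, u⟩ :: l') = of i u * prodL φ' l' := by simp [prodL]
      rw [e, Act_mul, h3, Act_of, e', mul_assoc]

include hF in
theorem Act_free (hφ : ∀ i, Function.Injective (φ i)) (hφ' : ∀ i, Function.Injective (φ' i))
    (g : PushoutI φ) (p : PushoutI φ') (hg : Act F hF σ hσ g p = p) : g = 1 := by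
  obtain ⟨h, l, h1, h2, rfl⟩ := exists_list hφ g
  obtain ⟨l', k1, k2, k3⟩ := Act_list F hF σ hσ l h2 p
  rw [Act_mul, k3, Act_base, ← mul_assoc] at hg
  have e1 : base φ' h * prodL φ' l' = 1 := by
    have : base φ' h * prodL φ' l' * p = 1 * p := by rw [hg, one_mul]
    exact mul_right_cancel this
  have e2 : l' = [] := by
    apply eq_nil_of_mem_range hφ' l' ?_ k2
    · refine ⟨h⁻¹, ?_⟩
      rw [map_inv]
      exact inv_eq_of_mul_eq_one_right e1
    · rw [← List.isChain_map (f := Sigma.fst) (R := fun a b => a ≠ b), k1, List.isChain_map]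
      exact h1
  subst e2
  have e3 : l = [] := by
    have := congrArg List.length k1
    simp at this
    exact List.length_eq_zero_iff.1 this.symm
  subst e3
  have e4 : base φ' h = 1 := by simpa [prodL] using e1
  have e5 : h = 1 := by
    apply base_injective hφ'
    rw [e4, map_one]
  rw [e5]
  simp [prodL]

end Action

/-! ### The quasi-isometry -/

theorem pushout_quasiIsometric {ι : Type} [Finite ι] [Nonempty ι] {H : Type} [Group H]
    {G : ι → Type} [∀ i, Group (G i)] (hfg : ∀ i, Group.FG (G i)) (φ φ' : ∀ i, H →* G i)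
    (hφ : ∀ i, Function.Injective (φ i)) (hφ' : ∀ i, Function.Injective (φ' i))
    (F : ∀ i, G i ≃ G i) (hF : ∀ i h x, F i (φ i h * x) = φ' i h * F i x)
    (hL : ∀ i s, {y | ∃ x, y = F i (s * x) * (F i x)⁻¹}.Finite)
    (hL' : ∀ i s, {y | ∃ x, y = (F i).symm (s * x) * ((F i).symm x)⁻¹}.Finite) :
    QuasiIsometric (Monoid.PushoutI φ) (Monoid.PushoutI φ') := by
  classical
  choose σ hσ using fun i => exists_retraction (of (φ := φ') i) (of_injective hφ' i)
  have hgen : ∀ i, ∃ S : Set (G i), S.Finite ∧ Subgroup.closure S = ⊤ := by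
    intro i
    obtain ⟨S, hS⟩ := Group.fg_def.1 (hfg i)
    exact ⟨S, S.finite_toSet, hS⟩
  choose S0 hS0 hS0' using hgen
  let S : Set (PushoutI φ) := ⋃ i, (of (φ := φ) i) '' S0 i
  let T : Set (PushoutI φ') := ⋃ i, (of (φ := φ') i) '' S0 i
  have hSf : S.Finite := Set.finite_iUnion (fun i => (hS0 i).image _)
  have hTf : T.Finite := Set.finite_iUnion (fun i => (hS0 i).image _)
  have hS : Subgroup.closure S = ⊤ := closure_of S0 hS0'
  have hT : Subgroup.closure T = ⊤ := closure_of S0 hS0'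
  have hSi : ∀ x, (x ∈ S ∨ x⁻¹ ∈ S) → ∃ i, ∃ s ∈ (S0 i ∪ (S0 i)⁻¹), x = of i s := by
    rintro x (hx | hx)
    · obtain ⟨_, ⟨i, rfl⟩, s, hs, rfl⟩ := hx
      exact ⟨i, s, Or.inl hs, rfl⟩
    · obtain ⟨_, ⟨i, rfl⟩, s, hs, hsx⟩ := hx
      refine ⟨i, s⁻¹, Or.inr (by simpa using hs), ?_⟩
      rw [map_inv]
      have : of i s = x⁻¹ := hsx
      rw [this, inv_inv]
  have hTi : ∀ x, (x ∈ T ∨ x⁻¹ ∈ T) → ∃ i, ∃ s ∈ (S0 i ∪ (S0 i)⁻¹), x = of i s := by
    rintro x (hx | hx)
    · obtain ⟨_, ⟨i, rfl⟩, s, hs, rfl⟩ := hx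
      exact ⟨i, s, Or.inl hs, rfl⟩
    · obtain ⟨_, ⟨i, rfl⟩, s, hs, hsx⟩ := hx
      refine ⟨i, s⁻¹, Or.inr (by simpa using hs), ?_⟩
      rw [map_inv]
      have : of i s = x⁻¹ := hsx
      rw [this, inv_inv]
  have hfin : ∀ i, (S0 i ∪ (S0 i)⁻¹).Finite := fun i => (hS0 i).union (hS0 i).inv
  -- the two finite sets of displacements
  let X : Set (PushoutI φ') := ⋃ i, ⋃ s ∈ (S0 i ∪ (S0 i)⁻¹), (of (φ := φ') i) ''
    {y | ∃ x, y = F i (s * x) * (F i x)⁻¹}
  let Y : Set (PushoutI φ) := ⋃ i, ⋃ s ∈ (S0 i ∪ (S0 i)⁻¹), (of (φ := φ) i) ''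
    {y | ∃ x, y = (F i).symm (s * x) * ((F i).symm x)⁻¹}
  have hX : X.Finite := Set.finite_iUnion (fun i => (hfin i).biUnion (fun s _ => (hL i s).image _))
  have hY : Y.Finite := Set.finite_iUnion (fun i => (hfin i).biUnion (fun s _ => (hL' i s).image _))
  obtain ⟨K1, hK1⟩ := exists_bound (S := T) hX
  obtain ⟨K2, hK2⟩ := exists_bound (S := S) hY
  let A := Act F hF σ hσ
  have hstep1 : ∀ x, (x ∈ S ∨ x⁻¹ ∈ S) → ∀ p, ∃ u ∈ X, A x p = u * p := by
    intro x hx p
    obtain ⟨i, s, hs, rfl⟩ := hSi x hx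
    refine ⟨_, ?_, Act_of F hF σ hσ i s p⟩
    simp only [X, Set.mem_iUnion]
    exact ⟨i, s, hs, _, ⟨(F i).symm (σ i p), by rw [Equiv.apply_symm_apply]⟩, rfl⟩
  have hstep2 : ∀ x, (x ∈ T ∨ x⁻¹ ∈ T) → ∀ p, ∃ a ∈ Y, A a p = x * p := by
    intro x hx p
    obtain ⟨i, s, hs, rfl⟩ := hTi x hx
    refine ⟨of i ((F i).symm (s * σ i p) * ((F i).symm (σ i p))⁻¹), ?_, ?_⟩
    · simp only [Y, Set.mem_iUnion]
      exact ⟨i, s, hs, _, ⟨σ i p, rfl⟩, rfl⟩
    · change Act F hF σ hσ _ p = _
      rw [Act_of, inv_mul_cancel_right, Equiv.apply_symm_apply, mul_inv_cancel_right]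
  have hword1 : ∀ l : List (PushoutI φ), (∀ x ∈ l, x ∈ S ∨ x⁻¹ ∈ S) → ∀ p,
      ∃ u, wordLength T u ≤ K1 * l.length ∧ A l.prod p = u * p := by
    intro l
    induction l with
    | nil =>
      intro _ p
      refine ⟨1, by rw [wordLength_one]; exact Nat.zero_le _, ?_⟩
      rw [List.prod_nil, one_mul]
      exact Act_one F hF σ hσ p
    | cons x l ih =>
      intro hl p
      obtain ⟨u, hu, hu2⟩ := ih (fun y hy => hl y (List.mem_cons_of_mem _ hy)) p
      obtain ⟨v, hv, hv2⟩ := hstep1 x (hl x List.mem_cons_self) (u * p)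
      refine ⟨v * u, ?_, ?_⟩
      · have := wordLength_mul_le hT v u
        have h2 := hK1 v hv
        rw [List.length_cons]
        nlinarith
      · rw [List.prod_cons]
        have := Act_mul F hF σ hσ x l.prod p
        change A (x * l.prod) p = A x (A l.prod p) at this
        rw [this, hu2, hv2, mul_assoc]
  have hword2 : ∀ l : List (PushoutI φ'), (∀ x ∈ l, x ∈ T ∨ x⁻¹ ∈ T) → ∀ p,
      ∃ a, wordLength S a ≤ K2 * l.length ∧ A a p = l.prod * p := by
    intro l
    induction l with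
    | nil =>
      intro _ p
      refine ⟨1, by rw [wordLength_one]; exact Nat.zero_le _, ?_⟩
      rw [List.prod_nil, one_mul]
      exact Act_one F hF σ hσ p
    | cons x l ih =>
      intro hl p
      obtain ⟨a, ha, ha2⟩ := ih (fun y hy => hl y (List.mem_cons_of_mem _ hy)) p
      obtain ⟨b, hb, hb2⟩ := hstep2 x (hl x List.mem_cons_self) (l.prod * p)
      refine ⟨b * a, ?_, ?_⟩
      · have := wordLength_mul_le hS b a
        have h2 := hK2 b hb
        rw [List.length_cons]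
        nlinarith
      · have := Act_mul F hF σ hσ b a p
        change A (b * a) p = A b (A a p) at this
        rw [this, ha2, hb2, List.prod_cons, mul_assoc]
  have hfree : ∀ a b p, A a p = A b p → a = b := by
    intro a b p h
    have h1 : A (b⁻¹ * a) p = p := by
      have := Act_mul F hF σ hσ b⁻¹ a p
      change A (b⁻¹ * a) p = A b⁻¹ (A a p) at this
      rw [this, h]
      have h2 := Act_mul F hF σ hσ b⁻¹ b p
      change A (b⁻¹ * b) p = A b⁻¹ (A b p) at h2
      rw [← h2, inv_mul_cancel]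
      exact Act_one F hF σ hσ p
    have h2 := Act_free F hF σ hσ hφ hφ' _ _ h1
    have h3 : b * (b⁻¹ * a) = b * 1 := by rw [h2]
    simpa using h3
  refine ⟨S, T, hSf, hTf, hS, hT, fun g => (A g⁻¹ 1)⁻¹, max K1 K2, ?_, ?_, ?_⟩
  · intro x y
    obtain ⟨l, h1, h2, h3⟩ := exists_word hS (x⁻¹ * y)
    obtain ⟨u, hu, hu2⟩ := hword1 l h2 (A y⁻¹ 1)
    have e : A x⁻¹ 1 = u * A y⁻¹ 1 := by
      rw [← hu2, h3]
      have := Act_mul F hF σ hσ (x⁻¹ * y) y⁻¹ 1
      change A ((x⁻¹ * y) * y⁻¹) 1 = A (x⁻¹ * y) (A y⁻¹ 1) at this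
      rw [← this, mul_inv_cancel_right]
    have e2 : ((A x⁻¹ 1)⁻¹)⁻¹ * (A y⁻¹ 1)⁻¹ = u := by
      rw [inv_inv, e, mul_inv_cancel_right]
    simp only [e2]
    rw [h1] at hu
    calc wordLength T u ≤ K1 * wordLength S (x⁻¹ * y) := hu
      _ ≤ max K1 K2 * wordLength S (x⁻¹ * y) := Nat.mul_le_mul_right _ (le_max_left _ _)
      _ ≤ _ := Nat.le_add_right _ _
  · intro x y
    have e0 : ((A x⁻¹ 1)⁻¹)⁻¹ * (A y⁻¹ 1)⁻¹ = A x⁻¹ 1 * (A y⁻¹ 1)⁻¹ := by rw [inv_inv]
    simp only [e0]
    obtain ⟨l, h1, h2, h3⟩ := exists_word hT (A x⁻¹ 1 * (A y⁻¹ 1)⁻¹)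
    obtain ⟨a, ha, ha2⟩ := hword2 l h2 (A y⁻¹ 1)
    rw [h3, inv_mul_cancel_right] at ha2
    have e : A (a * y⁻¹) 1 = A x⁻¹ 1 := by
      have := Act_mul F hF σ hσ a y⁻¹ 1
      change A (a * y⁻¹) 1 = A a (A y⁻¹ 1) at this
      rw [this, ha2]
    have e2 : a = x⁻¹ * y := by
      have := hfree _ _ _ e
      rw [← this]
      group
    rw [h1, e2] at ha
    calc wordLength S (x⁻¹ * y) ≤ K2 * wordLength T (A x⁻¹ 1 * (A y⁻¹ 1)⁻¹) := ha
      _ ≤ max K1 K2 * wordLength T (A x⁻¹ 1 * (A y⁻¹ 1)⁻¹) :=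
        Nat.mul_le_mul_right _ (le_max_right _ _)
      _ ≤ _ := Nat.le_add_right _ _
  · intro h
    obtain ⟨l, h1, h2, h3⟩ := exists_word hT h⁻¹
    obtain ⟨a, ha, ha2⟩ := hword2 l h2 1
    rw [h3, mul_one] at ha2
    refine ⟨a⁻¹, ?_⟩
    have e : ((A a⁻¹⁻¹ 1)⁻¹)⁻¹ * h = 1 := by
      rw [inv_inv, inv_inv, ha2, inv_mul_cancel]
    simp only [e, wordLength_one]
    exact Nat.zero_le _

end Pool.Agent.Work.MP_f0c219_gt.BlockE
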