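import Pool.Agent.Work.MP_f0c219_gt_h18.NbarMetric

/-!
# Stage S2, part 2: the metric on the piece `N̄ × S¹`
-/

open Set Topology Filter
open scoped ComplexConjugate

namespace Pool.Agent.Work.MP_f0c219_gt.PieceMetric

open Model Borromean TruncHyp

/-- The statement of `exists_good` (S1). -/
def GoodExists : Prop := ∀ q : Bor.Core, ∃ γ, Good γ q

/-- The `ℓ²` combination with fibres scaled by `1 / √32`. -/
noncomputable def l2 (a b : ℝ) : ℝ := √(a ^ 2 + b ^ 2 / 32)

theorem l2_eq_norm (a b : ℝ) : l2 a b = ‖(⟨a, b / √32⟩ : ℂ)‖ := by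
  unfold l2
  rw [Complex.norm_def, Complex.normSq_apply]
  congr 1
  have h : √32 * √32 = (32 : ℝ) := Real.mul_self_sqrt (by norm_num)
  have h' : √32 ≠ (0 : ℝ) := by positivity
  simp only
  rw [div_mul_div_comm, h]
  ring

theorem l2_nonneg (a b : ℝ) : 0 ≤ l2 a b := Real.sqrt_nonneg _

theorem l2_sq (a b : ℝ) : l2 a b ^ 2 = a ^ 2 + b ^ 2 / 32 := Real.sq_sqrt (by positivity)

theorem l2_zero : l2 0 0 = 0 := by simp [l2]

theorem l2_mono {a b a' b' : ℝ} (ha : 0 ≤ a) (hb : 0 ≤ b) (haa : a ≤ a') (hbb : b ≤ b') :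
    l2 a b ≤ l2 a' b' := by
  unfold l2
  gcongr

theorem l2_add_le (a b a' b' : ℝ) : l2 (a + a') (b + b') ≤ l2 a b + l2 a' b' := by
  rw [l2_eq_norm, l2_eq_norm, l2_eq_norm]
  have : (⟨a + a', (b + b') / √32⟩ : ℂ) = ⟨a, b / √32⟩ + ⟨a', b' / √32⟩ := by
    apply Complex.ext
    · rfl
    · simp [add_div]
  rw [this]
  exact norm_add_le _ _

theorem le_l2 (a b : ℝ) : a ≤ l2 a b := by
  apply Real.le_sqrt_of_sq_le
  have := sq_nonneg b
  linarith

theorem abs_le_six_l2 (a b : ℝ) : |b| ≤ 6 * l2 a b := by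
  apply abs_le_of_sq_le_sq _ (by have := l2_nonneg a b; positivity)
  rw [mul_pow, l2_sq]
  nlinarith [sq_nonneg a, sq_nonneg b]

theorem eq_zero_of_l2 {a b : ℝ} (h : l2 a b = 0) : a = 0 ∧ b = 0 := by
  have h1 := l2_sq a b
  rw [h] at h1
  constructor
  · nlinarith [sq_nonneg a, sq_nonneg b]
  · nlinarith [sq_nonneg a, sq_nonneg b]

theorem fl_eq (p : ℂ × ℝ) : fl p = l2 ‖p.1‖ p.2 := rfl

/-- The truncated `ℓ²` metric on `X × S¹`. -/
@[reducible] noncomputable def truncProd {X : Type*} (m : MetricSpace X) (ρ : ℝ) (hρ : 0 < ρ) :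
    MetricSpace (X × AddCircle (1 : ℝ)) where
  dist v w := min (l2 (m.dist v.1 w.1) (dist v.2 w.2)) ρ
  dist_self v := by
    have : m.dist v.1 v.1 = 0 := m.dist_self _
    rw [this, dist_self, l2_zero, min_eq_left hρ.le]
  dist_comm v w := by
    have : m.dist v.1 w.1 = m.dist w.1 v.1 := m.dist_comm _ _
    rw [this, dist_comm v.2]
  dist_triangle u v w := by
    have h1 : m.dist u.1 w.1 ≤ m.dist u.1 v.1 + m.dist v.1 w.1 := m.dist_triangle _ _ _
    have h2 := dist_triangle u.2 v.2 w.2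
    have h3 : 0 ≤ m.dist u.1 w.1 := @dist_nonneg _ m.toPseudoMetricSpace _ _
    have h4 := l2_mono h3 dist_nonneg h1 h2
    have h5 := h4.trans (l2_add_le _ _ _ _)
    have h6 := l2_nonneg (m.dist u.1 v.1) (dist u.2 v.2)
    have h7 := l2_nonneg (m.dist v.1 w.1) (dist v.2 w.2)
    rcases le_total (l2 (m.dist u.1 v.1) (dist u.2 v.2)) ρ with h | h
    · rcases le_total (l2 (m.dist v.1 w.1) (dist v.2 w.2)) ρ with h' | h'
      · rw [min_eq_left h, min_eq_left h']
        exact (min_le_left _ _).trans h5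
      · rw [min_eq_left h, min_eq_right h']
        exact (min_le_right _ _).trans (by linarith)
    · rw [min_eq_right h]
      refine (min_le_right _ _).trans ?_
      have : 0 ≤ min (l2 (m.dist v.1 w.1) (dist v.2 w.2)) ρ := le_min h7 hρ.le
      linarith
  eq_of_dist_eq_zero := by
    intro v w h
    have h1 : l2 (m.dist v.1 w.1) (dist v.2 w.2) = 0 := by
      rcases le_total (l2 (m.dist v.1 w.1) (dist v.2 w.2)) ρ with h' | h'
      · rwa [min_eq_left h'] at h
      · rw [min_eq_right h'] at h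
        linarith
    obtain ⟨h2, h3⟩ := eq_zero_of_l2 h1
    exact Prod.ext (m.eq_of_dist_eq_zero h2) (dist_eq_zero.1 h3)

theorem truncProd_dist {X : Type*} (m : MetricSpace X) (ρ : ℝ) (hρ : 0 < ρ)
    (v w : X × AddCircle (1 : ℝ)) : (truncProd m ρ hρ).dist v w =
      min (l2 (m.dist v.1 w.1) (dist v.2 w.2)) ρ := rfl

/-- The real line is CAT(0). -/
theorem isCAT0_real : IsCAT0 ℝ := by
  refine isCAT0_of_bicombing (fun x y t => (1 - t) * x + t * y) ?_ ?_ ?_
  · intro x y; simp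
  · intro x y; simp
  · intro p x y t ht
    rw [Real.dist_eq, Real.dist_eq, Real.dist_eq, Real.dist_eq, sq_abs, sq_abs, sq_abs, sq_abs]
    apply le_of_eq
    ring

/-! ## The model `TH × ℝ` -/

/-- The type of points of the truncated hyperbolic space, without its instances. -/
def TM : Type := TH

/-- The type of points of the model. -/
def PM : Type := TH × ℝ

theorem exists_model : ∃ mP : MetricSpace PM,
    (∀ p q : PM, mP.dist p q ^ 2 = dTH p.1 q.1 ^ 2 + (p.2 - q.2) ^ 2) ∧ @IsCAT0 PM mP := by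
  obtain ⟨mT, hT, -, hC⟩ := truncHyp
  let mT' : MetricSpace TM := mT
  have hC' : IsCAT0 TM := hC
  have hT' : ∀ p q : TM, dist p q = dTH p q := hT
  let D : PM → PM → ℝ := fun p q => √(dTH p.1 q.1 ^ 2 + (p.2 - q.2) ^ 2)
  have hDn : ∀ p q : PM, D p q = ‖(⟨dTH p.1 q.1, |p.2 - q.2|⟩ : ℂ)‖ := by
    intro p q
    rw [Complex.norm_def, Complex.normSq_apply]
    simp only [D]
    congr 1
    rw [abs_mul_abs_self]
    ring
  let mP : MetricSpace PM :=
    { dist := D
      dist_self := by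
        intro x
        simp only [D, dTH_self]
        simp
      dist_comm := by
        intro x y
        simp only [D]
        rw [dTH_comm x.1 y.1]
        congr 2
        ring
      dist_triangle := by
        intro x y z
        rw [hDn x y, hDn y z]
        refine le_trans ?_ (norm_add_le _ _)
        rw [Complex.norm_def, Complex.normSq_apply]
        simp only [D]
        apply Real.sqrt_le_sqrt
        have h1 := dTH_triangle x.1 y.1 z.1
        have h2 := abs_sub_le x.2 y.2 z.2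
        have h3 := dTH_nonneg x.1 z.1
        have h4 := abs_nonneg (x.2 - z.2)
        rw [← sq_abs (x.2 - z.2)]
        simp only [Complex.add_re, Complex.add_im]
        nlinarith
      eq_of_dist_eq_zero := by
        intro x y h
        have h1 : dTH x.1 y.1 ^ 2 + (x.2 - y.2) ^ 2 = 0 :=
          (Real.sqrt_eq_zero (by positivity)).1 h
        have h2 : dTH x.1 y.1 = 0 := by nlinarith [sq_nonneg (dTH x.1 y.1), sq_nonneg (x.2 - y.2)]
        have h3 : x.2 - y.2 = 0 := by nlinarith [sq_nonneg (dTH x.1 y.1), sq_nonneg (x.2 - y.2)]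
        apply Prod.ext
        · exact Subtype.ext (eq_of_dT x.1.2 y.1.2 h2)
        · linarith }
  have hP : ∀ p q : PM, dist p q ^ 2 = dTH p.1 q.1 ^ 2 + (p.2 - q.2) ^ 2 := by
    intro p q
    exact Real.sq_sqrt (by positivity)
  refine ⟨mP, hP, ?_⟩
  let e : PM ≃ TM × ℝ := ⟨fun p => p, fun p => p, fun _ => rfl, fun _ => rfl⟩
  refine IsCAT0.prod hC' isCAT0_real e ?_
  intro p q
  rw [hP, Real.dist_eq, sq_abs]
  exact congrArg (fun x : ℝ => x ^ 2 + (p.2 - q.2) ^ 2) (hT' _ _).symm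

/-- A closed ball which is the isometric image of a closed ball of a CAT(0) space is CAT(0). -/
theorem isCAT0_ball_of_map {X Y : Type*} [MetricSpace X] [MetricSpace Y] (hX : IsCAT0 X) (x0 : X)
    (y0 : Y) (r : ℝ) (F : Metric.closedBall x0 r → Y) (hF : ∀ x y, dist (F x) (F y) = dist x y)
    (hmem : ∀ x, dist (F x) y0 ≤ r) (hsurj : ∀ y, dist y y0 ≤ r → ∃ x, F x = y) :
    IsCAT0 (Metric.closedBall y0 r) := by
  let G : Metric.closedBall x0 r → Metric.closedBall y0 r := fun x => ⟨F x, hmem x⟩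
  have hG : Isometry G := Isometry.of_dist_eq fun x y => hF x y
  have hs : Function.Surjective G := by
    rintro ⟨y, hy⟩
    obtain ⟨x, hx⟩ := hsurj y hy
    exact ⟨x, Subtype.ext hx⟩
  exact (hX.closedBall x0 r).of_equiv (Equiv.ofBijective G ⟨hG.injective, hs⟩) hG

/-! ## The circle -/

theorem circ_dist (s s' : ℝ) (h : |s - s'| ≤ 1 / 2) :
    dist (s : AddCircle (1 : ℝ)) (s' : AddCircle (1 : ℝ)) = |s - s'| := by
  rw [dist_eq_norm, ← AddCircle.coe_sub]
  apply (AddCircle.norm_coe_eq_abs_iff (1 : ℝ) one_ne_zero).2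
  rwa [abs_one]

theorem circ_exists_int (s s' : ℝ) : ∃ k : ℤ,
    |s - (s' + k)| = dist (s : AddCircle (1 : ℝ)) (s' : AddCircle (1 : ℝ)) := by
  refine ⟨round (s - s'), ?_⟩
  rw [dist_eq_norm, ← AddCircle.coe_sub]
  have := UnitAddCircle.norm_eq (x := s - s')
  rw [show ‖((s - s' : ℝ) : AddCircle (1 : ℝ))‖ = |s - s' - round (s - s')| from this]
  congr 1
  ring

theorem circ_add_int (s : ℝ) (k : ℤ) : ((s + k : ℝ) : AddCircle (1 : ℝ)) = (s : AddCircle (1 : ℝ)) := by
  rw [AddCircle.coe_add]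
  have : ((k : ℝ) : AddCircle (1 : ℝ)) = 0 := by
    rw [AddCircle.coe_eq_zero_iff]
    exact ⟨k, by simp⟩
  rw [this, add_zero]

theorem circ_exists_rep (s : ℝ) (σ : AddCircle (1 : ℝ)) : ∃ s' : ℝ, (s' : AddCircle (1 : ℝ)) = σ ∧
    |s - s'| = dist (s : AddCircle (1 : ℝ)) σ := by
  obtain ⟨s', rfl⟩ := QuotientAddGroup.mk_surjective σ
  obtain ⟨k, hk⟩ := circ_exists_int s s'
  exact ⟨s' + k, circ_add_int s' k, hk⟩

/-! ## Balls in the piece -/

section

variable (mN : MetricSpace Bor.Nbar) {ρN : ℝ}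
  (hc : ∀ γ q, Good γ q → ∀ q' q'', dTH (tau γ q) (tau γ q') ≤ ρN →
    dTH (tau γ q) (tau γ q'') ≤ ρN → mN.dist (cls q') (cls q'') = dTH (tau γ q') (tau γ q''))
  (hd : ∀ γ q, Good γ q → ∀ x : TH, dTH (tau γ q) x ≤ ρN → ∃ q', tau γ q' = x)
  (he : ∀ γ q, Good γ q → ∀ n : Bor.Nbar, mN.dist (cls q) n ≤ ρN → ∃ q', n = cls q' ∧
    dTH (tau γ q) (tau γ q') = mN.dist (cls q) n)

include hc hd he

theorem cat0_closedBall (hgood : GoodExists) {ρ : ℝ} (hρ : 0 < ρ) (hρN : ρ ≤ ρN)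
    (hρ16 : ρ ≤ 1 / 16) (v : Bor.Piece) (r : ℝ) (hr : r ≤ ρ / 2) :
    @IsCAT0 (@Metric.closedBall _ (truncProd mN ρ hρ).toPseudoMetricSpace v r)
      (@Subtype.metricSpace _ _ (truncProd mN ρ hρ)) := by
  obtain ⟨n0, σ0⟩ := v
  obtain ⟨q0, rfl⟩ : ∃ q : Bor.Core, cls q = n0 := Quotient.exists_rep n0
  obtain ⟨s0, rfl⟩ := QuotientAddGroup.mk_surjective σ0
  obtain ⟨γ, hγ⟩ := hgood q0
  obtain ⟨mP, hP, hC⟩ := exists_model
  have hP' : ∀ p q : PM, dist p q ^ 2 = dTH p.1 q.1 ^ 2 + (p.2 - q.2) ^ 2 := hP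
  have h32 : 0 < √(32 : ℝ) := by positivity
  have h32' : √32 ^ 2 = (32 : ℝ) := Real.sq_sqrt (by norm_num)
  let x0 : PM := (tau γ q0, s0 / √32)
  -- distances in the model, in terms of `l2`
  have hPl : ∀ p q : PM, dist p q = l2 (dTH p.1 q.1) |√32 * p.2 - √32 * q.2| := by
    intro p q
    rw [← abs_of_nonneg (@dist_nonneg _ _ p q), ← abs_of_nonneg (l2_nonneg (dTH p.1 q.1) _),
      ← sq_eq_sq_iff_abs_eq_abs, hP', l2_sq, ← mul_sub, sq_abs, mul_pow, h32']
    ring
  have hQ : ∀ x : Metric.closedBall x0 r, ∃ q', tau γ q' = x.1.1 := by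
    rintro ⟨x, hx⟩
    rw [Metric.mem_closedBall, dist_comm, hPl] at hx
    exact hd γ q0 hγ x.1 ((le_l2 _ _).trans (by linarith))
  choose Q hQ using hQ
  have hQn : ∀ x : Metric.closedBall x0 r, dTH (tau γ q0) (tau γ (Q x)) ≤ ρN := by
    rintro ⟨x, hx⟩
    rw [hQ]
    rw [Metric.mem_closedBall, dist_comm, hPl] at hx
    exact (le_l2 _ _).trans (by linarith)
  let F : Metric.closedBall x0 r → Bor.Piece := fun x =>
    (cls (Q x), ((√32 * x.1.2 : ℝ) : AddCircle (1 : ℝ)))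
  have hF : ∀ x y, (truncProd mN ρ hρ).dist (F x) (F y) = dist x y := by
    intro x y
    have hxy : dist (x : PM) y ≤ ρ := by
      have h1 := x.2
      have h2 := y.2
      rw [Metric.mem_closedBall] at h1 h2
      have h3 := dist_triangle (x : PM) x0 y
      rw [dist_comm x0] at h3
      linarith
    rw [truncProd_dist, Subtype.dist_eq, hPl]
    have e1 : mN.dist (F x).1 (F y).1 = dTH x.1.1 y.1.1 := by
      change mN.dist (cls (Q x)) (cls (Q y)) = _
      rw [hc γ q0 hγ (Q x) (Q y) (hQn x) (hQn y), hQ, hQ]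
    have e2 : dist (F x).2 (F y).2 = |√32 * x.1.2 - √32 * y.1.2| := by
      apply circ_dist
      have h3 := abs_le_six_l2 (dTH x.1.1 y.1.1) |√32 * x.1.2 - √32 * y.1.2|
      rw [← hPl, abs_abs] at h3
      linarith
    rw [e1, e2, min_eq_left]
    rw [← hPl]
    exact hxy
  have hF0 : 0 ≤ r → ∃ x, F x = (cls q0, (s0 : AddCircle (1 : ℝ))) ∧ x.1 = x0 := by
    intro h
    refine ⟨⟨x0, Metric.mem_closedBall_self h⟩, ?_, rfl⟩
    apply Prod.ext
    · change cls (Q _) = cls q0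
      congr 1
      apply tau_injective γ
      rw [hQ]
    · change ((√32 * (s0 / √32) : ℝ) : AddCircle (1 : ℝ)) = _
      rw [mul_div_cancel₀ _ h32.ne']
  have hmem : ∀ x, (truncProd mN ρ hρ).dist (F x) (cls q0, (s0 : AddCircle (1 : ℝ))) ≤ r := by
    intro x
    have hx : dist (x : PM) x0 ≤ r := x.2
    obtain ⟨y, hy, hy'⟩ := hF0 (dist_nonneg.trans hx)
    rw [← hy, hF, Subtype.dist_eq, hy']
    exact hx
  -- the map between the balls
  refine @isCAT0_ball_of_map PM Bor.Piece mP (truncProd mN ρ hρ) hC x0 _ r F hF hmem ?_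
  rintro ⟨n, σ⟩ hy
  have hy0 : min (l2 (mN.dist n (cls q0)) (dist σ (s0 : AddCircle (1 : ℝ)))) ρ ≤ r := hy
  have hnc : mN.dist n (cls q0) = mN.dist (cls q0) n := mN.dist_comm _ _
  rw [hnc, dist_comm σ] at hy0
  have hy1 : l2 (mN.dist (cls q0) n) (dist (s0 : AddCircle (1 : ℝ)) σ) ≤ r := by
    rcases le_total (l2 (mN.dist (cls q0) n) (dist (s0 : AddCircle (1 : ℝ)) σ)) ρ with h | h
    · rwa [min_eq_left h] at hy0
    · rw [min_eq_right h] at hy0
      linarith
  obtain ⟨q', rfl, hq'⟩ := he γ q0 hγ n ((le_l2 _ _).trans (by linarith))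
  obtain ⟨s', rfl, hs'⟩ := circ_exists_rep s0 σ
  let x : PM := (tau γ q', s' / √32)
  have hx : dist x0 x ≤ r := by
    rw [hPl]
    change l2 (dTH (tau γ q0) (tau γ q')) |√32 * (s0 / √32) - √32 * (s' / √32)| ≤ r
    rw [mul_div_cancel₀ _ h32.ne', mul_div_cancel₀ _ h32.ne', hs', hq']
    exact hy1
  refine ⟨⟨x, by rw [Metric.mem_closedBall, dist_comm]; exact hx⟩, ?_⟩
  apply Prod.ext
  · change cls (Q _) = cls q'
    congr 1
    apply tau_injective γ
    rw [hQ]
  · change ((√32 * (s' / √32) : ℝ) : AddCircle (1 : ℝ)) = _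
    rw [mul_div_cancel₀ _ h32.ne']

end

/-! ## Continuity -/

theorem tendsto_dist (mN : MetricSpace Bor.Nbar)
    (hb : ∀ q : Bor.Core, Tendsto (fun q' => mN.dist (cls q) (cls q')) (𝓝 q) (𝓝 0))
    {ρ : ℝ} (hρ : 0 < ρ) (v : Bor.Piece) :
    Tendsto (fun v' => (truncProd mN ρ hρ).dist v v') (𝓝 v) (𝓝 0) := by
  have h1 : Continuous (fun n' : Bor.Nbar => mN.dist v.1 n') := by
    have h2 : Continuous (fun q : Bor.Core => mN.dist v.1 (cls q)) := by
      rw [continuous_iff_continuousAt]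
      intro q
      rw [ContinuousAt, tendsto_iff_dist_tendsto_zero]
      refine squeeze_zero (fun _ => dist_nonneg) (fun q' => ?_) (hb q)
      rw [Real.dist_eq]
      have h3 : mN.dist v.1 (cls q') ≤ mN.dist v.1 (cls q) + mN.dist (cls q) (cls q') :=
        mN.dist_triangle _ _ _
      have h4 : mN.dist v.1 (cls q) ≤ mN.dist v.1 (cls q') + mN.dist (cls q') (cls q) :=
        mN.dist_triangle _ _ _
      have h5 : mN.dist (cls q') (cls q) = mN.dist (cls q) (cls q') := mN.dist_comm _ _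
      rw [abs_le]
      constructor <;> linarith
    exact isQuotientMap_quot_mk.continuous_iff.2 h2
  have h2 : Continuous (fun v' : Bor.Piece => (truncProd mN ρ hρ).dist v v') := by
    have h3 : Continuous (fun v' : Bor.Piece => mN.dist v.1 v'.1) := h1.comp continuous_fst
    have h4 : Continuous (fun v' : Bor.Piece => dist v.2 v'.2) := continuous_const.dist continuous_snd
    have h5 : Continuous (fun v' : Bor.Piece => min (√(mN.dist v.1 v'.1 ^ 2 +
        dist v.2 v'.2 ^ 2 / 32)) ρ) :=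
      (((h3.pow 2).add ((h4.pow 2).div_const _)).sqrt).min continuous_const
    exact h5
  have h3 := h2.tendsto v
  have h4 : (truncProd mN ρ hρ).dist v v = 0 := (truncProd mN ρ hρ).dist_self v
  rwa [h4] at h3


/-! ## The wall -/

theorem wallPt_val (z : ℂ) : (wallPt z).1 = D4 • pt z 1 one_pos := rfl

theorem wallPt_height (z : ℂ) : (wallPt z).1.1.2 = 16 := by
  rw [wallPt_val, (D4_smul _).2]
  change (16 : ℝ) * 1 = 16
  norm_num

theorem tau_one_wallPt (z : ℂ) : (tau 1 (wallPt z)).1 = (z, 1) := by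
  change ((D4⁻¹ • (toC 1 • (D4 • pt z 1 one_pos))).1 : ℂ × ℝ) = (z, 1)
  rw [map_one, one_smul, inv_smul_smul]
  rfl

theorem good_wallPt (z : ℂ) : Good 1 (wallPt z) := by
  intro γ'
  by_cases hc : γ' 1 0 = 0
  · left
    rwa [inv_one, mul_one]
  · right
    change ((D4⁻¹ • (toC γ' • (wallPt z).1)).1 : ℂ × ℝ).2 ≤ 1 / 16
    rw [(D4_inv_smul _).2]
    have h := height_of_c_ne_zero hc (wallPt z).1
    rw [wallPt_height] at h
    linarith

theorem dTH_wall (z z' : ℂ) : dTH (tau 1 (wallPt z)) (tau 1 (wallPt z')) = ‖z - z'‖ := by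
  unfold dTH
  rw [tau_one_wallPt, tau_one_wallPt]
  simp only [one_pow, sub_self, Real.sqrt_zero, add_zero, Real.artanh_zero, zero_add, mul_one]
  split_ifs with h
  · have h0 : ‖z - z'‖ = 0 := le_antisymm h (norm_nonneg _)
    rw [h0]
    norm_num
  · rfl

theorem wall_height {z : ℂ} {x : TH} (h : dTH (tau 1 (wallPt z)) x < 1 / 16) : 1 / 16 < x.1.2 := by
  by_contra hx
  push Not at hx
  have hx0 : 0 < x.1.2 := x.2.1
  have h1 := hC_le (tau 1 (wallPt z)).2 x.2
  have h2 : Real.cosh (dT (tau 1 (wallPt z)).1 x.1) ≤ Real.exp 1 := by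
    have h3 : 0 ≤ dTH (tau 1 (wallPt z)) x := dTH_nonneg _ _
    have h4 := Real.cosh_le_exp_half_sq (dTH (tau 1 (wallPt z)) x)
    refine h4.trans ?_
    apply Real.exp_le_exp.2
    nlinarith
  have h5 := Real.exp_one_lt_d9
  have h6 : (8 : ℝ) ≤ hC (tau 1 (wallPt z)).1 x.1 := by
    rw [tau_one_wallPt]
    unfold hC
    simp only [one_pow, mul_one]
    rw [le_div_iff₀ (by positivity)]
    nlinarith [sq_nonneg ‖z - x.1.1‖, sq_nonneg x.1.2]
  linarith

theorem fl_add_ev_eq (p p' : ℂ × ℝ) (m n k : ℤ) :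
    fl (p - (p' + ev (m, n, k))) = l2 ‖p.1 - (p'.1 + ((m : ℂ) * mu + (n : ℂ) * lam) / 16)‖
      (p.2 - (p'.2 + k)) := rfl

theorem l2_abs (a b : ℝ) : l2 a |b| = l2 a b := by
  unfold l2
  rw [sq_abs]

theorem translate_smul_wallPt (g : Bor.Γ) (w z : ℂ) (h : ∀ q : H3, g.1 • q = translate w q) :
    g • wallPt z = wallPt (z + w / 16) := by
  apply Subtype.ext
  rw [core_smul_val, h]
  apply Subtype.ext
  rw [wallPt_val, wallPt_val]
  apply Prod.ext
  · simp only [translate]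
    rw [(D4_smul _).1, (D4_smul _).1]
    simp only [pt]
    ring
  · simp only [translate]
    rw [(D4_smul _).2, (D4_smul _).2]
    rfl

theorem bd_add_ev (p : ℂ × ℝ) (v : Z3) : bd (p + ev v) = bd p := by
  unfold bd
  rw [ev_apply]
  apply Prod.ext
  · change cls (wallPt (p.1 + ((v.1 : ℂ) * mu + (v.2.1 : ℂ) * lam) / 16)) = cls (wallPt p.1)
    symm
    rw [cls_eq_iff]
    refine ⟨⟨_, mem_Γ.2 ⟨_, inGam_Tr v.1 v.2.1, rfl⟩⟩, ?_⟩
    apply translate_smul_wallPt
    intro q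
    rw [Tr_smul, toComplex_Tr]
  · change ((p.2 + (v.2.2 : ℝ) : ℝ) : AddCircle (1 : ℝ)) = _
    exact circ_add_int _ _

/-- The statement of `exists_pieceMetric`. -/
def PieceMetricStmt : Prop := ∃ (m : MetricSpace Bor.Piece) (ρ : ℝ), 0 < ρ ∧
    (∀ v w, m.dist v w ≤ ρ) ∧
    (∀ v, Tendsto (fun v' => m.dist v v') (𝓝 v) (𝓝 0)) ∧
    (∀ (v : Bor.Piece) (r : ℝ), r ≤ ρ / 2 →
      @IsCAT0 (@Metric.closedBall _ m.toPseudoMetricSpace v r) (@Subtype.metricSpace _ _ m)) ∧
    (∀ p p' : ℂ × ℝ, fl (p - p') ≤ ρ → m.dist (bd p) (bd p') = fl (p - p')) ∧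
    ∀ p p' : ℂ × ℝ, m.dist (bd p) (bd p') < ρ → ∃ v : Z3,
      fl (p - (p' + ev v)) = m.dist (bd p) (bd p')

theorem exists_pieceMetric (hgood : GoodExists) (hN : NbarMetric) : PieceMetricStmt := by
  obtain ⟨mN, ρN, hρN, hρ4, hb, hc, hd, he⟩ := hN
  set ρ := min ρN (1 / 16) with hρdef
  have hρ : 0 < ρ := by positivity
  have h1 : ρ ≤ ρN := min_le_left _ _
  have h2 : ρ ≤ 1 / 16 := min_le_right _ _
  refine ⟨truncProd mN ρ hρ, ρ, hρ, fun v w => min_le_right _ _, tendsto_dist mN hb hρ,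
    cat0_closedBall mN hc hd he hgood hρ h1 h2, ?_, ?_⟩
  · intro p p' h
    rw [truncProd_dist]
    rw [fl_eq] at h ⊢
    have h3 : ‖p.1 - p'.1‖ ≤ ρ := (le_l2 _ _).trans h
    have e1 : mN.dist (bd p).1 (bd p').1 = ‖p.1 - p'.1‖ := by
      change mN.dist (cls (wallPt p.1)) (cls (wallPt p'.1)) = _
      rw [hc 1 (wallPt p.1) (good_wallPt _) (wallPt p.1) (wallPt p'.1), dTH_wall]
      · rw [dTH_self]; exact hρN.le
      · rw [dTH_wall]; linarith
    have e2 : dist (bd p).2 (bd p').2 = |p.2 - p'.2| := by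
      apply circ_dist
      have h4 := abs_le_six_l2 ‖(p - p').1‖ (p - p').2
      rw [Prod.snd_sub] at h4
      rw [Prod.snd_sub] at h
      linarith
    rw [e1, e2, l2_abs]
    exact min_eq_left h
  · intro p p' h
    rw [truncProd_dist] at h ⊢
    have h3 : l2 (mN.dist (bd p).1 (bd p').1) (dist (bd p).2 (bd p').2) < ρ := by
      by_contra hcon
      push Not at hcon
      rw [min_eq_right hcon] at h
      exact lt_irrefl _ h
    rw [min_eq_left h3.le]
    have h4 : mN.dist (cls (wallPt p.1)) (cls (wallPt p'.1)) < ρ := (le_l2 _ _).trans_lt h3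
    obtain ⟨q', hq', hdist⟩ := he 1 (wallPt p.1) (good_wallPt _) (cls (wallPt p'.1)) (by linarith)
    obtain ⟨g, rfl⟩ := cls_eq_iff.1 hq'
    obtain ⟨γ, hγ, hg⟩ := mem_Γ.1 g.2
    have h5 : 1 / 16 < (tau 1 (g • wallPt p'.1)).1.2 := by
      apply wall_height (z := p.1)
      rw [hdist]
      linarith
    have h6 : (tau 1 (g • wallPt p'.1)).1.2 = (toC γ • (wallPt p'.1).1).1.2 / 16 := by
      change ((D4⁻¹ • (toC 1 • (g.1 • (wallPt p'.1).1))).1 : ℂ × ℝ).2 = _
      rw [(D4_inv_smul _).2, map_one, one_smul, hg]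
    have hcz : γ 1 0 = 0 := by
      apply c_eq_zero_of_height (q := (wallPt p'.1).1)
      · rw [wallPt_height]; norm_num
      · rw [h6] at h5; linarith
    obtain ⟨a, b, hab⟩ := exists_translate hγ hcz
    have h7 : g • wallPt p'.1 = wallPt (p'.1 + ((a : ℂ) * mu + (b : ℂ) * lam) / 16) := by
      apply translate_smul_wallPt
      intro q
      rw [← hg]
      exact hab q
    obtain ⟨k, hk⟩ := circ_exists_int p.2 p'.2
    refine ⟨(a, b, k), ?_⟩
    rw [fl_add_ev_eq]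
    rw [h7, dTH_wall] at hdist
    rw [hdist, ← l2_abs, hk]
    rfl

end Pool.Agent.Work.MP_f0c219_gt.PieceMetric
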