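import Pool.Agent.Work.MP_f0c219_gt.MetricDefs
import Pool.Agent.Work.MP_f0c219_gt_h82.Cat0Ext

/-!
# Stage S2, part 1: the metric on `N̄`

The statements of stage S1 are taken as explicit hypotheses.
-/

open Set Topology Filter
open scoped ComplexConjugate

namespace Pool.Agent.Work.MP_f0c219_gt.PieceMetric

open Model Borromean TruncHyp

/-- The statement of `exists_coreMetric` (S1). -/
def CoreMetric : Prop := ∃ m : MetricSpace Bor.Core,
    (∀ (g : Bor.Γ) (q q' : Bor.Core), m.dist (g • q) (g • q') = m.dist q q') ∧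
    (∀ q, Tendsto (fun q' => m.dist q q') (𝓝 q) (𝓝 0)) ∧
    (∀ γ q, Good γ q → ∀ q' q'', m.dist q q' < 1 → m.dist q q'' < 1 →
      m.dist q' q'' = min (dTH (tau γ q') (tau γ q'')) 1) ∧
    (∀ γ q, Good γ q → ∀ x : TH, dTH (tau γ q) x < 1 → ∃ q', tau γ q' = x ∧ m.dist q q' < 1) ∧
    ∃ ε : ℝ, 0 < ε ∧ ∀ g : Bor.Γ, (∀ q : Bor.Core, g • q = q) ∨
      ∀ q : Bor.Core, ε ≤ m.dist q (g • q)

/-- The statement of `exists_nbarMetric`. -/
def NbarMetric : Prop := ∃ (m : MetricSpace Bor.Nbar) (ρ : ℝ), 0 < ρ ∧ ρ ≤ 1 / 4 ∧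
    (∀ q : Bor.Core, Tendsto (fun q' => m.dist (cls q) (cls q')) (𝓝 q) (𝓝 0)) ∧
    (∀ γ q, Good γ q → ∀ q' q'', dTH (tau γ q) (tau γ q') ≤ ρ → dTH (tau γ q) (tau γ q'') ≤ ρ →
      m.dist (cls q') (cls q'') = dTH (tau γ q') (tau γ q'')) ∧
    (∀ γ q, Good γ q → ∀ x : TH, dTH (tau γ q) x ≤ ρ → ∃ q', tau γ q' = x) ∧
    ∀ γ q, Good γ q → ∀ n : Bor.Nbar, m.dist (cls q) n ≤ ρ → ∃ q', n = cls q' ∧
      dTH (tau γ q) (tau γ q') = m.dist (cls q) n

theorem dTH_self (x : TH) : dTH x x = 0 := dT_self x.1 x.2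

theorem dTH_comm (x y : TH) : dTH x y = dTH y x := dT_comm x.1 y.1

theorem dTH_nonneg (x y : TH) : 0 ≤ dTH x y := dT_nonneg x.2 y.2

theorem dTH_triangle (x y z : TH) : dTH x z ≤ dTH x y + dTH y z := by
  choose γ hγ0 hγ1 hγ using exists_geodesic
  exact triangle_of_bicombing dTH (fun a b => dT_nonneg a.2 b.2)
      (fun a b => dT_comm a.1 b.1) γ (fun p a b t ht => hγ a b p t ht) x z y

theorem tau_injective (γ : SL2Gi) : Function.Injective (tau γ) := by
  intro q q' h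
  have h1 : D4⁻¹ • (toC γ • q.1) = D4⁻¹ • (toC γ • q'.1) := by
    apply Subtype.ext
    exact congrArg (fun x : TH => x.1) h
  have h2 : toC γ • q.1 = toC γ • q'.1 := smul_left_cancel _ h1
  exact Subtype.ext (smul_left_cancel _ h2)

theorem exists_nbarMetric (h1 : CoreMetric) : NbarMetric := by
  obtain ⟨m0, hinv, hcont, hloc, hsurj, ε, hε, hdisp⟩ := h1
  obtain ⟨m, hle', hloc'', hrep'⟩ : ∃ m : MetricSpace Bor.Nbar,
      (∀ x y : Bor.Core, m.dist (cls x) (cls y) ≤ m0.dist x y) ∧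
      (∀ x y : Bor.Core, m0.dist x y < ε / 2 → m.dist (cls x) (cls y) = m0.dist x y) ∧
      (∀ x y : Bor.Core, m.dist (cls x) (cls y) < ε / 2 → ∃ g : Bor.Γ,
        m.dist (cls x) (cls y) = m0.dist x (g • y)) :=
    @exists_quotient_metric Bor.Core m0 Bor.coreSetoid Bor.Γ _ _
    (by
      intro x y
      constructor
      · rintro ⟨g, hg, h⟩
        exact ⟨⟨g, hg⟩, Subtype.ext h⟩
      · rintro ⟨g, h⟩
        exact ⟨g.1, g.2, congrArg Subtype.val h⟩) hinv ε hε hdisp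
  have hself : ∀ x, m0.dist x x = 0 := fun x => m0.dist_self x
  have hρ : 0 < min (1 / 4 : ℝ) (ε / 8) := by positivity
  have hρ4 : min (1 / 4 : ℝ) (ε / 8) ≤ 1 / 4 := min_le_left _ _
  have hρε : min (1 / 4 : ℝ) (ε / 8) ≤ ε / 8 := min_le_right _ _
  refine ⟨m, min (1 / 4) (ε / 8), hρ, hρ4, ?_, ?_, ?_, ?_⟩
  · intro q
    refine squeeze_zero (fun q' => ?_) (fun q' => hle' q q') (hcont q)
    exact @dist_nonneg _ m.toPseudoMetricSpace _ _
  · intro γ q hq q' q'' h' h''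
    have hlt : ∀ q', dTH (tau γ q) (tau γ q') ≤ min (1 / 4) (ε / 8) → m0.dist q q' < 1 := by
      intro q' h
      obtain ⟨q1, h1, h2⟩ := hsurj γ q hq (tau γ q') (by linarith)
      rwa [tau_injective γ h1] at h2
    have h3 := hloc γ q hq q' q'' (hlt q' h') (hlt q'' h'')
    have h4 := dTH_triangle (tau γ q') (tau γ q) (tau γ q'')
    rw [dTH_comm (tau γ q') (tau γ q)] at h4
    have h5 : dTH (tau γ q') (tau γ q'') ≤ 1 := by linarith
    rw [min_eq_left h5] at h3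
    rw [← h3]
    apply hloc''
    rw [h3]
    linarith
  · intro γ q hq x hx
    obtain ⟨q', h, -⟩ := hsurj γ q hq x (by linarith)
    exact ⟨q', h⟩
  · intro γ q hq n hn
    obtain ⟨y, rfl⟩ : ∃ y : Bor.Core, cls y = n := Quotient.exists_rep n
    obtain ⟨g, hg⟩ := hrep' q y (by linarith)
    refine ⟨g • y, cls_eq_iff.2 ⟨g, rfl⟩, ?_⟩
    have h1 : m0.dist q (g • y) < 1 := by rw [← hg]; linarith
    have h2 := hloc γ q hq q (g • y) (by rw [hself]; norm_num) h1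
    rw [hg]
    rw [h2]
    rw [h2] at h1
    have h3 : dTH (tau γ q) (tau γ (g • y)) < 1 := by
      by_contra h
      push Not at h
      rw [min_eq_right h] at h1
      exact lt_irrefl _ h1
    rw [min_eq_left h3.le]

end Pool.Agent.Work.MP_f0c219_gt.PieceMetric
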