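import Pool.Agent.Work.MP_f0c219_gt.Gam

/-!
# Block F, part 1: integral Hermitian forms and the two types of planes
-/

open Matrix

namespace Pool.Agent.Work.MP_f0c219_gt.BlockF

/-- `2 × 2` matrices over the Gaussian integers -/
abbrev Mat : Type := Matrix (Fin 2) (Fin 2) GaussianInt

/-- the Hermitian matrix with diagonal `2a, 2d` and upper right entry `(1+i)(b1 + i b2)` -/
def M (a d b1 b2 : ℤ) : Mat := !![⟨2 * a, 0⟩, ⟨b1 - b2, b1 + b2⟩; ⟨b1 - b2, -(b1 + b2)⟩, ⟨2 * d, 0⟩]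

theorem M_inj {a d b1 b2 a' d' b1' b2' : ℤ} (h : M a d b1 b2 = M a' d' b1' b2') :
    a = a' ∧ d = d' ∧ b1 = b1' ∧ b2 = b2' := by
  have h00 := congrFun (congrFun h 0) 0
  have h01 := congrFun (congrFun h 0) 1
  have h11 := congrFun (congrFun h 1) 1
  simp only [M, Matrix.of_apply, Matrix.cons_val', Matrix.cons_val_zero, Matrix.cons_val_one,
    Matrix.cons_val_fin_one, Zsqrtd.mk.injEq] at h00 h01 h11
  omega

theorem M_add (a d b1 b2 a' d' b1' b2' : ℤ) :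
    M a d b1 b2 + M a' d' b1' b2' = M (a + a') (d + d') (b1 + b1') (b2 + b2') := by
  ext i j <;> fin_cases i <;> fin_cases j <;> simp [M] <;> ring

theorem M_neg (a d b1 b2 : ℤ) : -M a d b1 b2 = M (-a) (-d) (-b1) (-b2) := by
  ext i j <;> fin_cases i <;> fin_cases j <;> simp [M] <;> ring

theorem M_sub (a d b1 b2 a' d' b1' b2' : ℤ) :
    M a d b1 b2 - M a' d' b1' b2' = M (a - a') (d - d') (b1 - b1') (b2 - b2') := by
  rw [sub_eq_add_neg, M_neg, M_add]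
  simp only [sub_eq_add_neg]

theorem M_zero : M 0 0 0 0 = 0 := by
  ext i j <;> fin_cases i <;> fin_cases j <;> simp [M]

theorem det_M (a d b1 b2 : ℤ) : (M a d b1 b2).det = ⟨4 * a * d - 2 * (b1 ^ 2 + b2 ^ 2), 0⟩ := by
  rw [Matrix.det_fin_two]
  ext <;> simp [M] <;> ring

/-- the action of `SL(2, ℤ[i])` on Hermitian matrices -/
def act (g : SL2Gi) (B : Mat) : Mat := (g : Mat) * B * (g : Mat)ᴴ

theorem act_mul (g h : SL2Gi) (B : Mat) : act (g * h) B = act g (act h B) := by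
  simp [act, Matrix.conjTranspose_mul, Matrix.mul_assoc]

theorem act_one (B : Mat) : act 1 B = B := by
  simp [act]

theorem act_inv_act (g : SL2Gi) (B : Mat) : act g⁻¹ (act g B) = B := by
  rw [← act_mul, inv_mul_cancel, act_one]

theorem act_act_inv (g : SL2Gi) (B : Mat) : act g (act g⁻¹ B) = B := by
  rw [← act_mul, mul_inv_cancel, act_one]

theorem act_injective (g : SL2Gi) : Function.Injective (act g) :=
  Function.LeftInverse.injective (act_inv_act g)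

theorem act_neg_left (g : SL2Gi) (B : Mat) : act (-g) B = act g B := by
  simp [act]

theorem act_add (g : SL2Gi) (B C : Mat) : act g (B + C) = act g B + act g C := by
  simp [act, Matrix.mul_add, Matrix.add_mul]

theorem act_sub (g : SL2Gi) (B C : Mat) : act g (B - C) = act g B - act g C := by
  simp [act, Matrix.mul_sub, Matrix.sub_mul]

theorem act_neg (g : SL2Gi) (B : Mat) : act g (-B) = -act g B := by
  simp [act]

theorem act_zero (g : SL2Gi) : act g 0 = 0 := by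
  simp [act]

theorem det_act (g : SL2Gi) (B : Mat) : (act g B).det = B.det := by
  unfold act
  rw [Matrix.det_mul, Matrix.det_mul, Matrix.det_conjTranspose, g.det_coe]
  simp

/-! ### Positive semidefinite matrices -/

/-- positive semidefinite Hermitian matrices -/
def PSD (C : Mat) : Prop :=
  Cᴴ = C ∧ ∀ v : Matrix (Fin 1) (Fin 2) GaussianInt, 0 ≤ ((v * C * vᴴ) 0 0).re

theorem PSD.act {C : Mat} (h : PSD C) (g : SL2Gi) : PSD (act g C) := by
  refine ⟨?_, fun v => ?_⟩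
  · unfold BlockF.act
    rw [Matrix.conjTranspose_mul, Matrix.conjTranspose_mul, Matrix.conjTranspose_conjTranspose, h.1,
      Matrix.mul_assoc]
  · have := h.2 (v * (g : Mat))
    rw [Matrix.conjTranspose_mul] at this
    unfold BlockF.act
    simpa only [Matrix.mul_assoc] using this

theorem PSD.zero : PSD 0 := ⟨by simp, fun v => by simp⟩

/-- the value of the form at `(x, y)` -/
theorem form_eq (C : Mat) (x y : GaussianInt) :
    ((!![x, y] : Matrix (Fin 1) (Fin 2) GaussianInt) * C *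
      (!![x, y] : Matrix (Fin 1) (Fin 2) GaussianInt)ᴴ) 0 0 =
    (x * C 0 0 + y * C 1 0) * star x + (x * C 0 1 + y * C 1 1) * star y := by
  simp [Matrix.mul_apply, Fin.sum_univ_two, Matrix.vecMul, dotProduct]

theorem PSD.form {C : Mat} (h : PSD C) (x y : GaussianInt) :
    0 ≤ ((x * C 0 0 + y * C 1 0) * star x + (x * C 0 1 + y * C 1 1) * star y).re := by
  rw [← form_eq]
  exact h.2 _

/-- the height functional: twice the value at the base point -/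
def L (C : Mat) : ℤ := 2 * (C 0 0).re + 4 * (C 1 1).re + (C 0 1).im - (C 0 1).re

theorem L_add (B C : Mat) : L (B + C) = L B + L C := by
  simp [L]; ring

theorem L_neg (B : Mat) : L (-B) = -L B := by
  simp [L]; ring

theorem L_sub (B C : Mat) : L (B - C) = L B - L C := by
  simp [L]; ring

theorem L_M (a d b1 b2 : ℤ) : L (M a d b1 b2) = 2 * (2 * a + 4 * d + b2) := by
  simp [L, M]; ring

theorem L_pos {C : Mat} (h : PSD C) (h0 : C ≠ 0) : 0 < L C := by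
  have hH := h.1
  have h10 : C 1 0 = star (C 0 1) := by
    have := congrFun (congrFun hH 1) 0
    rw [← this]; rfl
  have e00 : (C 0 0).im = 0 := by
    have := congrFun (congrFun hH 0) 0
    have h2 := congrArg Zsqrtd.im this
    simp [Matrix.conjTranspose_apply] at h2
    omega
  have e11 : (C 1 1).im = 0 := by
    have := congrFun (congrFun hH 1) 1
    have h2 := congrArg Zsqrtd.im this
    simp [Matrix.conjTranspose_apply] at h2
    omega
  have f1 := h.form 1 0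
  have f2 := h.form 0 1
  have f3 := h.form 1 ⟨-1, 1⟩
  have f4 := h.form 1 1
  have f5 := h.form 1 (-1)
  have f6 := h.form 1 ⟨0, 1⟩
  have f7 := h.form 1 ⟨0, -1⟩
  rw [h10] at f1 f2 f3 f4 f5 f6 f7
  simp [e11] at f1 f2 f3 f4 f5 f6 f7
  unfold L
  by_contra hc
  apply h0
  have g0 : (C 0 0).re = 0 := by omega
  have g1 : (C 1 1).re = 0 := by omega
  have g2 : (C 0 1).re = 0 := by omega
  have g3 : (C 0 1).im = 0 := by omega
  have g4 : C 0 1 = 0 := Zsqrtd.ext g2 g3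
  ext i j <;> fin_cases i <;> fin_cases j <;> simp [g0, g1, g4, e00, e11, h10]

theorem PSD_M {a d b1 b2 : ℤ} (ha : 0 ≤ a) (hd : 0 ≤ d) (h : b1 ^ 2 + b2 ^ 2 ≤ 2 * a * d) :
    PSD (M a d b1 b2) := by
  refine ⟨?_, fun v => ?_⟩
  · ext i j <;> fin_cases i <;> fin_cases j <;> simp [M, Matrix.conjTranspose_apply]
  · obtain ⟨x, y, hv⟩ : ∃ x y : GaussianInt, v = !![x, y] := by
      refine ⟨v 0 0, v 0 1, ?_⟩
      ext i j <;> fin_cases i <;> fin_cases j <;> rfl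
    rw [hv, form_eq]
    obtain ⟨x1, x2⟩ := x
    obtain ⟨y1, y2⟩ := y
    simp [M]
    rcases ha.eq_or_lt with h0 | h0
    · subst h0
      have hb1 : b1 = 0 := by nlinarith [sq_nonneg b1, sq_nonneg b2]
      have hb2 : b2 = 0 := by nlinarith [sq_nonneg b1, sq_nonneg b2]
      subst hb1 hb2
      nlinarith [mul_nonneg hd (sq_nonneg y1), mul_nonneg hd (sq_nonneg y2)]
    · refine nonneg_of_mul_nonneg_right (a := 2 * a) ?_ (by linarith)
      have h1 : 0 ≤ 4 * a * d - 2 * (b1 ^ 2 + b2 ^ 2) := by linarith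
      have h2 : 0 ≤ (2 * a * x1 + (b1 - b2) * y1 + (b1 + b2) * y2) ^ 2 +
          (2 * a * x2 + (b1 - b2) * y2 - (b1 + b2) * y1) ^ 2 +
          (4 * a * d - 2 * (b1 ^ 2 + b2 ^ 2)) * (y1 ^ 2 + y2 ^ 2) :=
        add_nonneg (add_nonneg (sq_nonneg _) (sq_nonneg _))
          (mul_nonneg h1 (add_nonneg (sq_nonneg _) (sq_nonneg _)))
      linarith [h2]

/-! ### The two types of planes -/

/-- the residues modulo 4 of the planes of the first type -/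
def resA (a d b1 b2 : ZMod 4) : Prop :=
  (a = 0 ∧ d = 0 ∧ b1 = 0 ∧ b2 = 1) ∨ (a = 0 ∧ d = 2 ∧ b1 = 0 ∧ b2 = 1) ∨
  (a = 2 ∧ d = 0 ∧ b1 = 0 ∧ b2 = 3) ∨ (a = 2 ∧ d = 2 ∧ b1 = 0 ∧ b2 = 3)

/-- the residues modulo 4 of the planes of the second type -/
def resB (a d b1 b2 : ZMod 4) : Prop :=
  (a = 1 ∧ d = 0 ∧ b1 = 0 ∧ b2 = 1) ∨ (a = 1 ∧ d = 0 ∧ b1 = 0 ∧ b2 = 3) ∨
  (a = 3 ∧ d = 2 ∧ b1 = 2 ∧ b2 = 1) ∨ (a = 3 ∧ d = 2 ∧ b1 = 2 ∧ b2 = 3)

instance (a d b1 b2 : ZMod 4) : Decidable (resA a d b1 b2) := by unfold resA; infer_instance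
instance (a d b1 b2 : ZMod 4) : Decidable (resB a d b1 b2) := by unfold resB; infer_instance

/-- planes of the first type -/
def TA (B : Mat) : Prop := ∃ a d b1 b2 : ℤ, B = M a d b1 b2 ∧ b1 ^ 2 + b2 ^ 2 - 2 * a * d = 1 ∧
  resA a d b1 b2

/-- planes of the second type -/
def TB (B : Mat) : Prop := ∃ a d b1 b2 : ℤ, B = M a d b1 b2 ∧ b1 ^ 2 + b2 ^ 2 - 2 * a * d = 1 ∧
  resB a d b1 b2

/-- all planes, with both orientations -/
def Fam (B : Mat) : Prop := TA B ∨ TB B ∨ TA (-B) ∨ TB (-B)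

theorem Fam.neg {B : Mat} (h : Fam B) : Fam (-B) := by
  unfold Fam at *
  rw [neg_neg]
  tauto

theorem cast4 (x : ℤ) (r : ℤ) : ((x : ZMod 4) = (r : ZMod 4)) ↔ x % 4 = r % 4 := by
  rw [ZMod.intCast_eq_intCast_iff, Int.ModEq]
  norm_num

theorem resA_iff (a d b1 b2 : ℤ) : resA a d b1 b2 ↔
    (a % 4 = 0 ∧ d % 4 = 0 ∧ b1 % 4 = 0 ∧ b2 % 4 = 1) ∨
    (a % 4 = 0 ∧ d % 4 = 2 ∧ b1 % 4 = 0 ∧ b2 % 4 = 1) ∨
    (a % 4 = 2 ∧ d % 4 = 0 ∧ b1 % 4 = 0 ∧ b2 % 4 = 3) ∨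
    (a % 4 = 2 ∧ d % 4 = 2 ∧ b1 % 4 = 0 ∧ b2 % 4 = 3) := by
  have h0 := fun x : ℤ => cast4 x 0
  have h1 := fun x : ℤ => cast4 x 1
  have h2 := fun x : ℤ => cast4 x 2
  have h3 := fun x : ℤ => cast4 x 3
  norm_num at h0 h1 h2 h3
  unfold resA
  simp only [h0, h1, h2, h3]
  omega

theorem resB_iff (a d b1 b2 : ℤ) : resB a d b1 b2 ↔
    (a % 4 = 1 ∧ d % 4 = 0 ∧ b1 % 4 = 0 ∧ b2 % 4 = 1) ∨
    (a % 4 = 1 ∧ d % 4 = 0 ∧ b1 % 4 = 0 ∧ b2 % 4 = 3) ∨
    (a % 4 = 3 ∧ d % 4 = 2 ∧ b1 % 4 = 2 ∧ b2 % 4 = 1) ∨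
    (a % 4 = 3 ∧ d % 4 = 2 ∧ b1 % 4 = 2 ∧ b2 % 4 = 3) := by
  have h0 := fun x : ℤ => cast4 x 0
  have h1 := fun x : ℤ => cast4 x 1
  have h2 := fun x : ℤ => cast4 x 2
  have h3 := fun x : ℤ => cast4 x 3
  norm_num at h0 h1 h2 h3
  unfold resB
  simp only [h0, h1, h2, h3]
  omega

/-- the parities of a plane of the family -/
theorem Fam.exists {B : Mat} (h : Fam B) : ∃ a d b1 b2 : ℤ, B = M a d b1 b2 ∧
    b1 ^ 2 + b2 ^ 2 - 2 * a * d = 1 ∧ d % 2 = 0 ∧ b1 % 2 = 0 ∧ b2 % 2 = 1 := by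
  rcases h with ⟨a, d, b1, b2, h1, h2, h3⟩ | ⟨a, d, b1, b2, h1, h2, h3⟩ |
    ⟨a, d, b1, b2, h1, h2, h3⟩ | ⟨a, d, b1, b2, h1, h2, h3⟩
  · rw [resA_iff] at h3
    exact ⟨a, d, b1, b2, h1, h2, by omega, by omega, by omega⟩
  · rw [resB_iff] at h3
    exact ⟨a, d, b1, b2, h1, h2, by omega, by omega, by omega⟩
  · rw [resA_iff] at h3
    refine ⟨-a, -d, -b1, -b2, ?_, by linarith, by omega, by omega, by omega⟩
    rw [← M_neg, ← h1, neg_neg]
  · rw [resB_iff] at h3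
    refine ⟨-a, -d, -b1, -b2, ?_, by linarith, by omega, by omega, by omega⟩
    rw [← M_neg, ← h1, neg_neg]

theorem L_ne {B : Mat} (h : Fam B) : L B ≠ 0 := by
  obtain ⟨a, d, b1, b2, rfl, -, h3, h4, h5⟩ := h.exists
  rw [L_M]
  omega

theorem not_TA_TB {B : Mat} (h : TA B) (h' : TB (-B)) : False := by
  obtain ⟨a, d, b1, b2, rfl, -, h3⟩ := h
  obtain ⟨a', d', b1', b2', h1', -, h3'⟩ := h'
  rw [M_neg] at h1'
  obtain ⟨k1, k2, k3, k4⟩ := M_inj h1'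
  rw [resA_iff] at h3
  rw [resB_iff] at h3'
  omega

theorem psd_or {a d b1 b2 : ℤ} (h : b1 ^ 2 + b2 ^ 2 ≤ 2 * a * d) :
    PSD (M a d b1 b2) ∨ PSD (M (-a) (-d) (-b1) (-b2)) := by
  have h0 : 0 ≤ 2 * a * d := by nlinarith [sq_nonneg b1, sq_nonneg b2]
  rcases lt_trichotomy a 0 with ha | ha | ha
  · right
    exact PSD_M (by linarith) (by nlinarith) (by linarith)
  · subst ha
    have z1 : b1 = 0 := by nlinarith [sq_nonneg b1, sq_nonneg b2]
    have z2 : b2 = 0 := by nlinarith [sq_nonneg b1, sq_nonneg b2]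
    subst z1 z2
    rcases le_total 0 d with hd | hd
    · left
      exact PSD_M le_rfl hd (by simp)
    · right
      exact PSD_M (by simp) (by linarith) (by simp)
  · left
    exact PSD_M ha.le (by nlinarith) h

/-- two planes of the family do not cross -/
theorem nested {B B' : Mat} (h : Fam B) (h' : Fam B') :
    PSD (B' - B) ∨ PSD (B - B') ∨ PSD (B + B') ∨ PSD (-(B + B')) := by
  obtain ⟨a, d, b1, b2, rfl, h2, h3, h4, h5⟩ := h.exists
  obtain ⟨a', d', b1', b2', rfl, h2', h3', h4', h5'⟩ := h'.exists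
  have hr : (a * d' + a' * d - (b1 * b1' + b2 * b2')) % 2 = 1 := by
    obtain ⟨d0, rfl⟩ : ∃ k, d = 2 * k := ⟨d / 2, by omega⟩
    obtain ⟨d0', rfl⟩ : ∃ k, d' = 2 * k := ⟨d' / 2, by omega⟩
    obtain ⟨b10, rfl⟩ : ∃ k, b1 = 2 * k := ⟨b1 / 2, by omega⟩
    obtain ⟨b20, rfl⟩ : ∃ k, b2 = 2 * k + 1 := ⟨b2 / 2, by omega⟩
    obtain ⟨b20', rfl⟩ : ∃ k, b2' = 2 * k + 1 := ⟨b2' / 2, by omega⟩
    have e : a * (2 * d0') + a' * (2 * d0) - (2 * b10 * b1' + (2 * b20 + 1) * (2 * b20' + 1)) =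
      2 * (a * d0' + a' * d0 - b10 * b1' - 2 * b20 * b20' - b20 - b20' - 1) + 1 := by ring
    rw [e]
    omega
  have hcase : (a * d' + a' * d - (b1 * b1' + b2 * b2')) ≤ -1 ∨
      1 ≤ (a * d' + a' * d - (b1 * b1' + b2 * b2')) := by omega
  rcases hcase with hc | hc
  · have k : (b1' - b1) ^ 2 + (b2' - b2) ^ 2 ≤ 2 * (a' - a) * (d' - d) := by linarith
    rw [M_sub, M_sub]
    rcases psd_or k with h | h
    · exact Or.inl h
    · right; left
      simpa only [neg_sub] using h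
  · have k : (b1 + b1') ^ 2 + (b2 + b2') ^ 2 ≤ 2 * (a + a') * (d + d') := by linarith
    rw [M_add, M_neg]
    rcases psd_or k with h | h
    · right; right; left
      exact h
    · right; right; right
      exact h

/-! ### The group preserves the types -/

theorem conj_M (g : SL2Gi) (p1 p2 β1 β2 γ1 γ2 s1 s2 : ℤ)
    (h00 : g 0 0 = ⟨p1, p2⟩) (h01 : g 0 1 = ⟨1, 1⟩ * ⟨β1, β2⟩) (h10 : g 1 0 = ⟨1, 1⟩ * ⟨γ1, γ2⟩)
    (h11 : g 1 1 = ⟨s1, s2⟩) (a d b1 b2 : ℤ) : act g (M a d b1 b2) =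
    M (a * (p1 ^ 2 + p2 ^ 2) + 2 * ((p1 * b1 - p2 * b2) * β1 + (p1 * b2 + p2 * b1) * β2) +
        2 * d * (β1 ^ 2 + β2 ^ 2))
      (2 * a * (γ1 ^ 2 + γ2 ^ 2) + 2 * ((γ1 * b1 - γ2 * b2) * s2 - (γ1 * b2 + γ2 * b1) * s1) +
        d * (s1 ^ 2 + s2 ^ 2))
      (2 * a * (p2 * γ1 - p1 * γ2) + ((p1 * b1 - p2 * b2) * s1 + (p1 * b2 + p2 * b1) * s2) +
        2 * (β2 * (γ1 * b1 - γ2 * b2) - β1 * (γ1 * b2 + γ2 * b1)) + 2 * d * (β1 * s1 + β2 * s2))
      (-(2 * a * (p1 * γ1 + p2 * γ2)) + ((p1 * b2 + p2 * b1) * s1 - (p1 * b1 - p2 * b2) * s2) -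
        2 * (β1 * (γ1 * b1 - γ2 * b2) + β2 * (γ1 * b2 + γ2 * b1)) +
        2 * d * (β2 * s1 - β1 * s2)) := by
  have hg : (g : Mat) = !![⟨p1, p2⟩, ⟨1, 1⟩ * ⟨β1, β2⟩; ⟨1, 1⟩ * ⟨γ1, γ2⟩, ⟨s1, s2⟩] := by
    ext i j <;> fin_cases i <;> fin_cases j <;> simp [h00, h01, h10, h11]
  unfold act
  rw [hg]
  ext i j <;> fin_cases i <;> fin_cases j <;>
    simp [M, Matrix.mul_apply, Fin.sum_univ_two, Matrix.conjTranspose_apply] <;> ring

end Pool.Agent.Work.MP_f0c219_gt.BlockF
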