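import Pool.Agent.Work.MP_f0c219_gt_h18.Planes1

/-!
# Block F, part 2: the group preserves the types; the counting function
-/

open Matrix

namespace Pool.Agent.Work.MP_f0c219_gt.BlockF

/-- the new coordinates -/
def nA {R : Type} [CommRing R] (p1 p2 β1 β2 a d b1 b2 : R) : R :=
  a * (p1 ^ 2 + p2 ^ 2) + 2 * ((p1 * b1 - p2 * b2) * β1 + (p1 * b2 + p2 * b1) * β2) +
        2 * d * (β1 ^ 2 + β2 ^ 2)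
def nD {R : Type} [CommRing R] (γ1 γ2 s1 s2 a d b1 b2 : R) : R :=
  2 * a * (γ1 ^ 2 + γ2 ^ 2) + 2 * ((γ1 * b1 - γ2 * b2) * s2 - (γ1 * b2 + γ2 * b1) * s1) +
        d * (s1 ^ 2 + s2 ^ 2)
def nB1 {R : Type} [CommRing R] (p1 p2 β1 β2 γ1 γ2 s1 s2 a d b1 b2 : R) : R :=
  2 * a * (p2 * γ1 - p1 * γ2) + ((p1 * b1 - p2 * b2) * s1 + (p1 * b2 + p2 * b1) * s2) +
        2 * (β2 * (γ1 * b1 - γ2 * b2) - β1 * (γ1 * b2 + γ2 * b1)) + 2 * d * (β1 * s1 + β2 * s2)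
def nB2 {R : Type} [CommRing R] (p1 p2 β1 β2 γ1 γ2 s1 s2 a d b1 b2 : R) : R :=
  -(2 * a * (p1 * γ1 + p2 * γ2)) + ((p1 * b2 + p2 * b1) * s1 - (p1 * b1 - p2 * b2) * s2) -
        2 * (β1 * (γ1 * b1 - γ2 * b2) + β2 * (γ1 * b2 + γ2 * b1)) +
        2 * d * (β2 * s1 - β1 * s2)

/-- all new residues -/
def okA (p1 p2 β1 β2 γ1 γ2 s1 s2 a d b1 b2 : ZMod 4) : Prop :=
  resA (nA p1 p2 β1 β2 a d b1 b2) (nD γ1 γ2 s1 s2 a d b1 b2)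
    (nB1 p1 p2 β1 β2 γ1 γ2 s1 s2 a d b1 b2) (nB2 p1 p2 β1 β2 γ1 γ2 s1 s2 a d b1 b2)
def okB (p1 p2 β1 β2 γ1 γ2 s1 s2 a d b1 b2 : ZMod 4) : Prop :=
  resB (nA p1 p2 β1 β2 a d b1 b2) (nD γ1 γ2 s1 s2 a d b1 b2)
    (nB1 p1 p2 β1 β2 γ1 γ2 s1 s2 a d b1 b2) (nB2 p1 p2 β1 β2 γ1 γ2 s1 s2 a d b1 b2)

instance (p1 p2 β1 β2 γ1 γ2 s1 s2 a d b1 b2 : ZMod 4) :
    Decidable (okA p1 p2 β1 β2 γ1 γ2 s1 s2 a d b1 b2) := by unfold okA; infer_instance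
instance (p1 p2 β1 β2 γ1 γ2 s1 s2 a d b1 b2 : ZMod 4) :
    Decidable (okB p1 p2 β1 β2 γ1 γ2 s1 s2 a d b1 b2) := by unfold okB; infer_instance

/-- all eight checks -/
def okAll (p1 p2 β1 β2 γ1 γ2 s1 s2 : ZMod 4) : Prop :=
  okA p1 p2 β1 β2 γ1 γ2 s1 s2 0 0 0 1 ∧ okA p1 p2 β1 β2 γ1 γ2 s1 s2 0 2 0 1 ∧
  okA p1 p2 β1 β2 γ1 γ2 s1 s2 2 0 0 3 ∧ okA p1 p2 β1 β2 γ1 γ2 s1 s2 2 2 0 3 ∧
  okB p1 p2 β1 β2 γ1 γ2 s1 s2 1 0 0 1 ∧ okB p1 p2 β1 β2 γ1 γ2 s1 s2 1 0 0 3 ∧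
  okB p1 p2 β1 β2 γ1 γ2 s1 s2 3 2 2 1 ∧ okB p1 p2 β1 β2 γ1 γ2 s1 s2 3 2 2 3

instance (p1 p2 β1 β2 γ1 γ2 s1 s2 : ZMod 4) :
    Decidable (okAll p1 p2 β1 β2 γ1 γ2 s1 s2) := by unfold okAll; infer_instance

theorem check1 : ∀ p1 : ZMod 4, 2 * p1 = 2 → ∀ p2 : ZMod 4, 2 * p2 = 0 → ∀ β1 β2 : ZMod 4,
    2 * β2 = 0 → ∀ γ1 γ2 : ZMod 4, 2 * γ2 = 0 → ∀ s1 s2 : ZMod 4,
    p1 * s1 - p2 * s2 + 2 * (β1 * γ2 + β2 * γ1) = 1 →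
    p1 * s2 + p2 * s1 - 2 * (β1 * γ1 - β2 * γ2) = 0 →
    okAll p1 p2 β1 β2 γ1 γ2 s1 s2 := by
  decide +kernel

theorem check2 : ∀ p1 : ZMod 4, 2 * p1 = 0 → ∀ p2 : ZMod 4, 2 * p2 = 2 → ∀ β1 β2 : ZMod 4,
    2 * β1 = 2 → ∀ γ1 γ2 : ZMod 4, 2 * γ1 = 2 → ∀ s1 s2 : ZMod 4,
    p1 * s1 - p2 * s2 + 2 * (β1 * γ2 + β2 * γ1) = 1 →
    p1 * s2 + p2 * s1 - 2 * (β1 * γ1 - β2 * γ2) = 0 →
    okAll p1 p2 β1 β2 γ1 γ2 s1 s2 := by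
  decide +kernel

/-- coordinates of an element of the group -/
theorem InGam.coords {g : SL2Gi} (hg : InGam g) : ∃ p1 p2 β1 β2 γ1 γ2 s1 s2 : ℤ,
    g 0 0 = ⟨p1, p2⟩ ∧ g 0 1 = ⟨1, 1⟩ * ⟨β1, β2⟩ ∧ g 1 0 = ⟨1, 1⟩ * ⟨γ1, γ2⟩ ∧ g 1 1 = ⟨s1, s2⟩ ∧
    p1 * s1 - p2 * s2 + 2 * (β1 * γ2 + β2 * γ1) = 1 ∧
    p1 * s2 + p2 * s1 - 2 * (β1 * γ1 - β2 * γ2) = 0 ∧
    ((p1 % 2 = 1 ∧ p2 % 2 = 0 ∧ β2 % 2 = 0 ∧ γ2 % 2 = 0) ∨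
      (p1 % 2 = 0 ∧ p2 % 2 = 1 ∧ β1 % 2 = 1 ∧ γ1 % 2 = 1)) := by
  obtain ⟨⟨β1, β2⟩, ⟨γ1, γ2⟩, h01, h10, h⟩ := hg
  obtain ⟨p1, p2, h00⟩ : ∃ p1 p2 : ℤ, g 0 0 = ⟨p1, p2⟩ := ⟨_, _, rfl⟩
  obtain ⟨s1, s2, h11⟩ : ∃ s1 s2 : ℤ, g 1 1 = ⟨s1, s2⟩ := ⟨_, _, rfl⟩
  have hdet := g.det_coe
  rw [Matrix.det_fin_two] at hdet
  rw [h00, h01, h10, h11] at hdet
  have e1 := congrArg Zsqrtd.re hdet
  have e2 := congrArg Zsqrtd.im hdet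
  simp at e1 e2
  refine ⟨p1, p2, β1, β2, γ1, γ2, s1, s2, h00, h01, h10, h11, by linarith, by linarith, ?_⟩
  rw [h00] at h
  exact h

theorem cast_two_mul (x : ℤ) : (x % 2 = 1 → (2 : ZMod 4) * (x : ZMod 4) = 2) ∧
    (x % 2 = 0 → (2 : ZMod 4) * (x : ZMod 4) = 0) := by
  have h0 := cast4 (2 * x) 0
  have h2 := cast4 (2 * x) 2
  push_cast at h0 h2
  constructor
  · intro h
    apply h2.2
    omega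
  · intro h
    apply h0.2
    omega

/-- the residues are preserved -/
theorem okAll_of {p1 p2 β1 β2 γ1 γ2 s1 s2 : ℤ}
    (h1 : p1 * s1 - p2 * s2 + 2 * (β1 * γ2 + β2 * γ1) = 1)
    (h2 : p1 * s2 + p2 * s1 - 2 * (β1 * γ1 - β2 * γ2) = 0)
    (h : (p1 % 2 = 1 ∧ p2 % 2 = 0 ∧ β2 % 2 = 0 ∧ γ2 % 2 = 0) ∨
      (p1 % 2 = 0 ∧ p2 % 2 = 1 ∧ β1 % 2 = 1 ∧ γ1 % 2 = 1)) :
    okAll p1 p2 β1 β2 γ1 γ2 s1 s2 := by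
  have h1' := congrArg (Int.cast (R := ZMod 4)) h1
  have h2' := congrArg (Int.cast (R := ZMod 4)) h2
  push_cast at h1' h2'
  rcases h with ⟨a, b, c, d⟩ | ⟨a, b, c, d⟩
  · exact check1 _ ((cast_two_mul _).1 a) _ ((cast_two_mul _).2 b) _ _ ((cast_two_mul _).2 c) _ _
      ((cast_two_mul _).2 d) _ _ h1' h2'
  · exact check2 _ ((cast_two_mul _).2 a) _ ((cast_two_mul _).1 b) _ _ ((cast_two_mul _).1 c) _ _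
      ((cast_two_mul _).1 d) _ _ h1' h2'

theorem conj_M' (g : SL2Gi) (p1 p2 β1 β2 γ1 γ2 s1 s2 : ℤ)
    (h00 : g 0 0 = ⟨p1, p2⟩) (h01 : g 0 1 = ⟨1, 1⟩ * ⟨β1, β2⟩) (h10 : g 1 0 = ⟨1, 1⟩ * ⟨γ1, γ2⟩)
    (h11 : g 1 1 = ⟨s1, s2⟩) (a d b1 b2 : ℤ) : act g (M a d b1 b2) =
    M (nA p1 p2 β1 β2 a d b1 b2) (nD γ1 γ2 s1 s2 a d b1 b2)
    (nB1 p1 p2 β1 β2 γ1 γ2 s1 s2 a d b1 b2) (nB2 p1 p2 β1 β2 γ1 γ2 s1 s2 a d b1 b2) :=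
  conj_M g p1 p2 β1 β2 γ1 γ2 s1 s2 h00 h01 h10 h11 a d b1 b2

theorem norm_of_det {g : SL2Gi} {a d b1 b2 a' d' b1' b2' : ℤ}
    (h : act g (M a d b1 b2) = M a' d' b1' b2') (h1 : b1 ^ 2 + b2 ^ 2 - 2 * a * d = 1) :
    b1' ^ 2 + b2' ^ 2 - 2 * a' * d' = 1 := by
  have e := det_act g (M a d b1 b2)
  rw [h, det_M, det_M] at e
  have e1 := congrArg Zsqrtd.re e
  simp only at e1
  linarith

theorem TA_act {g : SL2Gi} (hg : InGam g) {B : Mat} (hB : TA B) : TA (act g B) := by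
  obtain ⟨p1, p2, β1, β2, γ1, γ2, s1, s2, h00, h01, h10, h11, e1, e2, hc⟩ := InGam.coords hg
  obtain ⟨a, d, b1, b2, rfl, h1, h2⟩ := hB
  have hk := conj_M' g p1 p2 β1 β2 γ1 γ2 s1 s2 h00 h01 h10 h11 a d b1 b2
  refine ⟨_, _, _, _, hk, norm_of_det hk h1, ?_⟩
  have hok := okAll_of e1 e2 hc
  have goal : okA p1 p2 β1 β2 γ1 γ2 s1 s2 a d b1 b2 := by
    unfold resA at h2
    rcases h2 with ⟨q1, q2, q3, q4⟩ | ⟨q1, q2, q3, q4⟩ | ⟨q1, q2, q3, q4⟩ | ⟨q1, q2, q3, q4⟩ <;>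
      rw [q1, q2, q3, q4]
    · exact hok.1
    · exact hok.2.1
    · exact hok.2.2.1
    · exact hok.2.2.2.1
  unfold okA nA nD nB1 nB2 at goal
  unfold nA nD nB1 nB2
  push_cast
  exact goal

theorem TB_act {g : SL2Gi} (hg : InGam g) {B : Mat} (hB : TB B) : TB (act g B) := by
  obtain ⟨p1, p2, β1, β2, γ1, γ2, s1, s2, h00, h01, h10, h11, e1, e2, hc⟩ := InGam.coords hg
  obtain ⟨a, d, b1, b2, rfl, h1, h2⟩ := hB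
  have hk := conj_M' g p1 p2 β1 β2 γ1 γ2 s1 s2 h00 h01 h10 h11 a d b1 b2
  refine ⟨_, _, _, _, hk, norm_of_det hk h1, ?_⟩
  have hok := okAll_of e1 e2 hc
  have goal : okB p1 p2 β1 β2 γ1 γ2 s1 s2 a d b1 b2 := by
    unfold resB at h2
    rcases h2 with ⟨q1, q2, q3, q4⟩ | ⟨q1, q2, q3, q4⟩ | ⟨q1, q2, q3, q4⟩ | ⟨q1, q2, q3, q4⟩ <;>
      rw [q1, q2, q3, q4]
    · exact hok.2.2.2.2.1
    · exact hok.2.2.2.2.2.1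
    · exact hok.2.2.2.2.2.2.1
    · exact hok.2.2.2.2.2.2.2
  unfold okB nA nD nB1 nB2 at goal
  unfold nA nD nB1 nB2
  push_cast
  exact goal

theorem Fam_act {g : SL2Gi} (hg : InGam g) {B : Mat} (hB : Fam B) : Fam (act g B) := by
  unfold Fam at *
  rw [← act_neg]
  rcases hB with h | h | h | h
  · exact Or.inl (TA_act hg h)
  · exact Or.inr (Or.inl (TB_act hg h))
  · exact Or.inr (Or.inr (Or.inl (TA_act hg h)))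
  · exact Or.inr (Or.inr (Or.inr (TB_act hg h)))

theorem InGam.inv {g : SL2Gi} (hg : InGam g) : InGam g⁻¹ := by
  obtain ⟨p1, p2, β1, β2, γ1, γ2, s1, s2, h00, h01, h10, h11, e1, e2, hc⟩ := InGam.coords hg
  have hinv := Matrix.SpecialLinearGroup.SL2_inv_expl g
  have i00 : g⁻¹ 0 0 = g 1 1 := by rw [hinv]; simp
  have i01 : g⁻¹ 0 1 = -g 0 1 := by rw [hinv]; simp
  have i10 : g⁻¹ 1 0 = -g 1 0 := by rw [hinv]; simp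
  refine ⟨-⟨β1, β2⟩, -⟨γ1, γ2⟩, ?_, ?_, ?_⟩
  · rw [i01, h01, mul_neg]
  · rw [i10, h10, mul_neg]
  · rw [i00, h11]
    simp only [Zsqrtd.re_neg, Zsqrtd.im_neg]
    rcases hc with ⟨a, b, c, d⟩ | ⟨a, b, c, d⟩
    · left
      obtain ⟨k1, rfl⟩ : ∃ k, p1 = 2 * k + 1 := ⟨p1 / 2, by omega⟩
      obtain ⟨k2, rfl⟩ : ∃ k, p2 = 2 * k := ⟨p2 / 2, by omega⟩
      have f1 : s1 = 1 - 2 * (k1 * s1 - k2 * s2 + (β1 * γ2 + β2 * γ1)) := by linarith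
      have f2 : s2 = 2 * (-(k1 * s2 + k2 * s1) + (β1 * γ1 - β2 * γ2)) := by linarith
      refine ⟨?_, ?_, by omega, by omega⟩
      · rw [f1]; omega
      · rw [f2]; omega
    · right
      obtain ⟨k1, rfl⟩ : ∃ k, p1 = 2 * k := ⟨p1 / 2, by omega⟩
      obtain ⟨k2, rfl⟩ : ∃ k, p2 = 2 * k + 1 := ⟨p2 / 2, by omega⟩
      have f1 : s1 = 2 * (-(k1 * s2 + k2 * s1) + (β1 * γ1 - β2 * γ2)) := by linarith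
      have f2 : s2 = -1 + 2 * (k1 * s1 - k2 * s2 + (β1 * γ2 + β2 * γ1)) := by linarith
      refine ⟨?_, ?_, by omega, by omega⟩
      · rw [f1]; omega
      · rw [f2]; omega

end Pool.Agent.Work.MP_f0c219_gt.BlockF
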