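import Pool.Agent.Work.MP_f0c219_gt_h18.Planes2

/-!
# Block F, part 3: the counting function and its coboundary
-/

open Matrix

namespace Pool.Agent.Work.MP_f0c219_gt.BlockF

/-- `H(B') ⊊ H(B)` -/
def lt (B B' : Mat) : Prop := PSD (B' - B) ∧ B ≠ B'

/-- adjacent planes of the family -/
def Adj (B B' : Mat) : Prop := Fam B ∧ Fam B' ∧ lt B B' ∧ ¬ ∃ C, Fam C ∧ lt B C ∧ lt C B'

/-- the pairs of adjacent planes that are counted -/
def Q (e : Mat × Mat) : Prop := TA e.1 ∧ TB e.2 ∧ Adj e.1 e.2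

theorem lt.neg {B B' : Mat} (h : lt B B') : lt (-B') (-B) := by
  refine ⟨?_, fun e => h.2 (neg_injective e).symm⟩
  have : -B - -B' = B' - B := by abel
  rw [this]
  exact h.1

theorem Adj.neg {B B' : Mat} (h : Adj B B') : Adj (-B') (-B) := by
  refine ⟨h.2.1.neg, h.1.neg, h.2.2.1.neg, ?_⟩
  rintro ⟨C, h1, h2, h3⟩
  refine h.2.2.2 ⟨-C, h1.neg, ?_, ?_⟩
  · have := h3.neg
    rwa [neg_neg] at this
  · have := h2.neg
    rwa [neg_neg] at this

/-- A generic point, seen as a functional on Hermitian matrices. -/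
structure IsPt (ℓ : Mat → ℤ) : Prop where
  add : ∀ B C, ℓ (B + C) = ℓ B + ℓ C
  neg : ∀ B, ℓ (-B) = -ℓ B
  pos : ∀ C, PSD C → C ≠ 0 → 0 < ℓ C
  ne : ∀ B, Fam B → ℓ B ≠ 0

theorem IsPt.sub {ℓ : Mat → ℤ} (h : IsPt ℓ) (B C : Mat) : ℓ (B - C) = ℓ B - ℓ C := by
  rw [sub_eq_add_neg, h.add, h.neg]; ring

theorem IsPt.lt {ℓ : Mat → ℤ} (h : IsPt ℓ) {B C : Mat} (hl : lt B C) : ℓ B < ℓ C := by
  have := h.pos (C - B) hl.1 (sub_ne_zero.2 hl.2.symm)
  rw [h.sub] at this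
  linarith

theorem IsPt.zero {ℓ : Mat → ℤ} (h : IsPt ℓ) : ℓ 0 = 0 := by
  have := h.add 0 0
  simp at this
  exact this

theorem IsPt.nonneg {ℓ : Mat → ℤ} (h : IsPt ℓ) {C : Mat} (hC : PSD C) : 0 ≤ ℓ C := by
  by_cases h0 : C = 0
  · rw [h0, h.zero]
  · exact (h.pos C hC h0).le

/-- the point `g • x₀` -/
def pnt (g : SL2Gi) (B : Mat) : ℤ := L (act g⁻¹ B)

theorem isPt_pnt {g : SL2Gi} (hg : InGam g) : IsPt (pnt g) where
  add B C := by simp only [pnt, act_add, L_add]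
  neg B := by simp only [pnt, act_neg, L_neg]
  pos C h h0 := by
    refine L_pos (h.act _) ?_
    intro h1
    apply h0
    apply act_injective g⁻¹
    rw [h1, act_zero]
  ne B h := L_ne (Fam_act (InGam.inv hg) h)

/-- two planes separating the same two points in the same direction are comparable -/
theorem cmp {ℓ ℓ' : Mat → ℤ} (h : IsPt ℓ) (h' : IsPt ℓ') {B B' : Mat} (hB : Fam B) (hB' : Fam B')
    (h1 : 0 < ℓ B) (h2 : ℓ' B < 0) (h3 : 0 < ℓ B') (h4 : ℓ' B' < 0) :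
    B = B' ∨ lt B B' ∨ lt B' B := by
  by_cases he : B = B'
  · exact Or.inl he
  right
  rcases nested hB hB' with k | k | k | k
  · exact Or.inl ⟨k, he⟩
  · exact Or.inr ⟨k, fun e => he e.symm⟩
  · have := h'.nonneg k
    rw [h'.add] at this
    linarith
  · have := h.nonneg k
    rw [h.neg, h.add] at this
    linarith

/-- the separating planes -/
def sepSet (ℓ ℓ' : Mat → ℤ) : Set Mat := {B | Fam B ∧ 0 < ℓ B ∧ ℓ' B < 0}

theorem sepSet_finite {ℓ ℓ' : Mat → ℤ} (h : IsPt ℓ) (h' : IsPt ℓ') : (sepSet ℓ ℓ').Finite := by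
  rcases (sepSet ℓ ℓ').eq_empty_or_nonempty with h0 | ⟨B1, hB1⟩
  · rw [h0]; exact Set.finite_empty
  -- a plane with the least value of `ℓ`
  obtain ⟨B0, hB0, hmin⟩ : ∃ B0 ∈ sepSet ℓ ℓ', ∀ B ∈ sepSet ℓ ℓ', ℓ B0 ≤ ℓ B := by
    have hne : ((fun B => (ℓ B).toNat) '' sepSet ℓ ℓ').Nonempty := ⟨_, B1, hB1, rfl⟩
    obtain ⟨B0, hB0, he⟩ := Nat.sInf_mem hne
    refine ⟨B0, hB0, fun B hB => ?_⟩
    have h1 : (ℓ B0).toNat ≤ (ℓ B).toNat := by
      have := Nat.sInf_le (show (ℓ B).toNat ∈ ((fun B => (ℓ B).toNat) '' sepSet ℓ ℓ') from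
        ⟨B, hB, rfl⟩)
      simp only at he
      omega
    have := hB.2.1
    have := hB0.2.1
    omega
  have hinj : Set.InjOn ℓ' (sepSet ℓ ℓ') := by
    intro B hB C hC he
    rcases cmp h h' hB.1 hC.1 hB.2.1 hB.2.2 hC.2.1 hC.2.2 with k | k | k
    · exact k
    · have := h'.lt k; omega
    · have := h'.lt k; omega
  refine Set.Finite.of_finite_image ?_ hinj
  refine (Set.finite_Icc (ℓ' B0) 0).subset ?_
  rintro _ ⟨B, hB, rfl⟩
  refine ⟨?_, hB.2.2.le⟩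
  rcases cmp h h' hB0.1 hB.1 hB0.2.1 hB0.2.2 hB.2.1 hB.2.2 with k | k | k
  · rw [k]
  · exact (h'.lt k).le
  · have := h.lt k
    have := hmin B hB
    omega

/-- the counted pairs separating two points -/
def Sep (ℓ ℓ' : Mat → ℤ) : Set (Mat × Mat) := {e | Q e ∧ 0 < ℓ e.1 ∧ ℓ' e.2 < 0}

theorem Sep_finite {ℓ ℓ' : Mat → ℤ} (h : IsPt ℓ) (h' : IsPt ℓ') : (Sep ℓ ℓ').Finite := by
  refine ((sepSet_finite h h').prod (sepSet_finite h h')).subset ?_
  rintro e ⟨⟨h1, h2, h3⟩, h4, h5⟩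
  have k := h.lt h3.2.2.1
  have k' := h'.lt h3.2.2.1
  exact ⟨⟨h3.1, h4, by linarith⟩, ⟨h3.2.1, by linarith, h5⟩⟩

/-- number of pairs -/
noncomputable def N (ℓ ℓ' : Mat → ℤ) : ℕ := (Sep ℓ ℓ').ncard

/-- uniqueness of the adjacent pair around `x` separating `y` and `z` -/
theorem adj_unique {x y z : Mat → ℤ} (hx : IsPt x) (hy : IsPt y) (hz : IsPt z) {B B' C C' : Mat}
    (h : Adj B B') (h' : Adj C C') (x1 : x B < 0) (x2 : 0 < x B') (y1 : 0 < y B) (z1 : z B' < 0)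
    (x1' : x C < 0) (x2' : 0 < x C') (y1' : 0 < y C) (z1' : z C' < 0) : B = C ∧ B' = C' := by
  have aux : ∀ {B B' C C' : Mat}, Adj B B' → Adj C C' → x B < 0 → 0 < x B' → 0 < y B → z B' < 0 →
      x C < 0 → 0 < x C' → 0 < y C → z C' < 0 → ¬ lt B C := by
    intro B B' C C' h h' x1 x2 y1 z1 x1' x2' y1' z1' hlt
    have k1 := hz.lt h.2.2.1
    have k2 := hy.lt h.2.2.1
    have k3 := hz.lt h'.2.2.1
    rcases cmp hy hz h'.1 h.2.1 y1' (by linarith) (by linarith) z1 with k | k | k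
    · rw [k] at x1'; linarith
    · exact h.2.2.2 ⟨C, h'.1, hlt, k⟩
    · have := hx.lt k; linarith
  have k1 := hz.lt h.2.2.1
  have k2 := hy.lt h.2.2.1
  have k3 := hz.lt h'.2.2.1
  have k4 := hy.lt h'.2.2.1
  have e1 : B = C := by
    rcases cmp hy hz h.1 h'.1 y1 (by linarith) y1' (by linarith) with k | k | k
    · exact k
    · exact absurd k (aux h h' x1 x2 y1 z1 x1' x2' y1' z1')
    · exact absurd k (aux h' h x1' x2' y1' z1' x1 x2 y1 z1)
  subst e1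
  refine ⟨rfl, ?_⟩
  rcases cmp hy hz h.2.1 h'.2.1 (by linarith) z1 (by linarith) z1' with k | k | k
  · exact k
  · exact absurd ⟨B', h.2.1, h.2.2.1, k⟩ h'.2.2.2
  · exact absurd ⟨C', h'.2.1, h'.2.2.1, k⟩ h.2.2.2

/-- the counted pairs with `x` in the middle and separating `y` and `z` -/
def Mid (x y z : Mat → ℤ) : Set (Mat × Mat) :=
  {e | Q e ∧ x e.1 < 0 ∧ 0 < x e.2 ∧ ((0 < y e.1 ∧ z e.2 < 0) ∨ (0 < z e.1 ∧ y e.2 < 0))}

theorem Mid_subsingleton {x y z : Mat → ℤ} (hx : IsPt x) (hy : IsPt y) (hz : IsPt z) :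
    (Mid x y z).Subsingleton := by
  have mixed : ∀ {y z : Mat → ℤ}, IsPt y → IsPt z → ∀ {e f : Mat × Mat}, Q e → Q f →
      x e.1 < 0 → 0 < x e.2 → x f.1 < 0 → 0 < x f.2 → 0 < y e.1 → z e.2 < 0 → 0 < z f.1 →
      y f.2 < 0 → False := by
    intro y z hy hz e f he hf x1 x2 x1' x2' y1 z1 z2 y2
    have := adj_unique hx hy hz he.2.2 hf.2.2.neg x1 x2 y1 z1 (by rw [hx.neg]; linarith)
      (by rw [hx.neg]; linarith) (by rw [hy.neg]; linarith) (by rw [hz.neg]; linarith)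
    have hA := he.1
    rw [this.1] at hA
    exact not_TA_TB hA (by rw [neg_neg]; exact hf.2.1)
  rintro e ⟨q, x1, x2, h⟩ f ⟨q', x1', x2', h'⟩
  rcases h with ⟨a, b⟩ | ⟨a, b⟩ <;> rcases h' with ⟨a', b'⟩ | ⟨a', b'⟩
  · have := adj_unique hx hy hz q.2.2 q'.2.2 x1 x2 a b x1' x2' a' b'
    exact Prod.ext this.1 this.2
  · exact (mixed hy hz q q' x1 x2 x1' x2' a b a' b').elim
  · exact (mixed hz hy q q' x1 x2 x1' x2' a b a' b').elim
  · have := adj_unique hx hz hy q.2.2 q'.2.2 x1 x2 a b x1' x2' a' b'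
    exact Prod.ext this.1 this.2

/-- The coboundary of the counting function is bounded. -/
theorem coboundary {x y z : Mat → ℤ} (hx : IsPt x) (hy : IsPt y) (hz : IsPt z) :
    |((N x y : ℤ) - N y x) + ((N y z : ℤ) - N z y) + ((N z x : ℤ) - N x z)| ≤ 3 := by
  classical
  let U : Set (Mat × Mat) := Sep x y ∪ Sep y x ∪ Sep y z ∪ Sep z y ∪ Sep z x ∪ Sep x z
  have hU : U.Finite := (((((Sep_finite hx hy).union (Sep_finite hy hx)).union
    (Sep_finite hy hz)).union (Sep_finite hz hy)).union (Sep_finite hz hx)).union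
    (Sep_finite hx hz)
  let E : Finset (Mat × Mat) := hU.toFinset
  have hEQ : ∀ e ∈ E, Q e := by
    intro e he
    have he' : e ∈ U := by simpa [E] using he
    rcases he' with ((((h | h) | h) | h) | h) | h <;> exact h.1
  have hN : ∀ ℓ ℓ' : Mat → ℤ, Sep ℓ ℓ' ⊆ U →
      (N ℓ ℓ' : ℤ) = ∑ e ∈ E, if (0 < ℓ e.1 ∧ ℓ' e.2 < 0) then 1 else 0 := by
    intro ℓ ℓ' hsub
    have : Sep ℓ ℓ' = ((E.filter fun e => 0 < ℓ e.1 ∧ ℓ' e.2 < 0 : Finset (Mat × Mat)) :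
        Set (Mat × Mat)) := by
      ext e
      simp only [Finset.coe_filter, Set.mem_ofPred_eq]
      constructor
      · intro h
        exact ⟨by simpa [E] using hsub h, h.2⟩
      · rintro ⟨h1, h2⟩
        exact ⟨hEQ e h1, h2⟩
    unfold N
    rw [this, Set.ncard_coe_finset, Finset.card_filter]
    push_cast
    rfl
  have s1 : Sep x y ⊆ U := fun e h => by simp only [U, Set.mem_union]; tauto
  have s2 : Sep y x ⊆ U := fun e h => by simp only [U, Set.mem_union]; tauto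
  have s3 : Sep y z ⊆ U := fun e h => by simp only [U, Set.mem_union]; tauto
  have s4 : Sep z y ⊆ U := fun e h => by simp only [U, Set.mem_union]; tauto
  have s5 : Sep z x ⊆ U := fun e h => by simp only [U, Set.mem_union]; tauto
  have s6 : Sep x z ⊆ U := fun e h => by simp only [U, Set.mem_union]; tauto
  rw [hN x y s1, hN y x s2, hN y z s3, hN z y s4, hN z x s5, hN x z s6]
  simp only [← Finset.sum_sub_distrib, ← Finset.sum_add_distrib]
  have hmid : ∀ S : Set (Mat × Mat), S.Subsingleton →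
      (∑ e ∈ E, if e ∈ S then (1 : ℤ) else 0) ≤ 1 := by
    intro S hS
    rw [← Finset.sum_filter]
    have : (E.filter fun e => e ∈ S).card ≤ 1 := by
      rw [Finset.card_le_one]
      intro a ha b hb
      exact hS (Finset.mem_filter.1 ha).2 (Finset.mem_filter.1 hb).2
    simp only [Finset.sum_const, nsmul_eq_mul, mul_one]
    exact_mod_cast this
  have m1 := hmid _ (Mid_subsingleton hx hy hz)
  have m2 := hmid _ (Mid_subsingleton hy hz hx)
  have m3 := hmid _ (Mid_subsingleton hz hx hy)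
  refine (Finset.abs_sum_le_sum_abs _ _).trans ?_
  have hbound : ∀ e ∈ E,
      |(((if (0 < x e.1 ∧ y e.2 < 0) then (1 : ℤ) else 0) -
          (if (0 < y e.1 ∧ x e.2 < 0) then 1 else 0)) +
        ((if (0 < y e.1 ∧ z e.2 < 0) then 1 else 0) -
          (if (0 < z e.1 ∧ y e.2 < 0) then 1 else 0))) +
        ((if (0 < z e.1 ∧ x e.2 < 0) then 1 else 0) -
          (if (0 < x e.1 ∧ z e.2 < 0) then 1 else 0))| ≤
      (if e ∈ Mid x y z then 1 else 0) + (if e ∈ Mid y z x then 1 else 0) +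
        (if e ∈ Mid z x y then 1 else 0) := by
    intro e he
    have hQ := hEQ e he
    have cx := hx.lt hQ.2.2.2.2.1
    have cy := hy.lt hQ.2.2.2.2.1
    have cz := hz.lt hQ.2.2.2.2.1
    have nx1 := hx.ne _ hQ.2.2.1
    have nx2 := hx.ne _ hQ.2.2.2.1
    have ny1 := hy.ne _ hQ.2.2.1
    have ny2 := hy.ne _ hQ.2.2.2.1
    have nz1 := hz.ne _ hQ.2.2.1
    have nz2 := hz.ne _ hQ.2.2.2.1
    simp only [Mid, Set.mem_ofPred_eq, hQ, true_and]
    have tx : (0 < x e.1 ∧ 0 < x e.2) ∨ (x e.1 < 0 ∧ 0 < x e.2) ∨ (x e.1 < 0 ∧ x e.2 < 0) := by omega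
    have ty : (0 < y e.1 ∧ 0 < y e.2) ∨ (y e.1 < 0 ∧ 0 < y e.2) ∨ (y e.1 < 0 ∧ y e.2 < 0) := by omega
    have tz : (0 < z e.1 ∧ 0 < z e.2) ∨ (z e.1 < 0 ∧ 0 < z e.2) ∨ (z e.1 < 0 ∧ z e.2 < 0) := by omega
    clear cx cy cz nx1 nx2 ny1 ny2 nz1 nz2
    rcases tx with ⟨a1, a2⟩ | ⟨a1, a2⟩ | ⟨a1, a2⟩ <;>
    rcases ty with ⟨b1, b2⟩ | ⟨b1, b2⟩ | ⟨b1, b2⟩ <;>
    rcases tz with ⟨c1, c2⟩ | ⟨c1, c2⟩ | ⟨c1, c2⟩ <;>
    simp [a1, a2, b1, b2, c1, c2, not_lt.2 a1.le, not_lt.2 a2.le,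
      not_lt.2 b1.le, not_lt.2 b2.le, not_lt.2 c1.le, not_lt.2 c2.le]
  refine (Finset.sum_le_sum hbound).trans ?_
  rw [Finset.sum_add_distrib, Finset.sum_add_distrib]
  linarith

end Pool.Agent.Work.MP_f0c219_gt.BlockF
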